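import Mathlib

/-!
Interface between the algebra and the forcing frame.  Main side: LEFT ideals.
-/

namespace Pool.Agent.Lib.MP_1e63be_al.Z41

open Function

/-- Von Neumann regular rings. -/
def Reg (R : Type) [Ring R] : Prop := ∀ x : R, ∃ y, x * y * x = x

/-- The class of rings used in the construction. -/
structure Good (F R : Type) [Field F] [Ring R] [Algebra F R] : Prop where
  reg : Reg R
  pi : ∀ x : R, x ≠ 0 → ∃ y z, y * x * z = 1
  cen : ∀ z : R, (∀ x, z * x = x * z) → ∃ c : F, z = algebraMap F R c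
  idem : ∃ e : R, e * e = e ∧ e ≠ 0 ∧ e ≠ 1

/-- A promise: a ring `A` mapped to `R` and a left ideal of `A`. -/
structure Prom (R : Type) [Ring R] : Type 1 where
  A : Type
  [rg : Ring A]
  f : A →+* R
  J : Ideal A

attribute [instance] Prom.rg

/-- Transport of a promise. -/
def Prom.map {R R' : Type} [Ring R] [Ring R'] (P : Prom R) (g : R →+* R') : Prom R' :=
  ⟨P.A, g.comp P.f, P.J⟩

/-- The strong seal. -/
def Prom.Kept {R : Type} [Ring R] (P : Prom R) : Prop :=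
  ∀ (d : P.A) (x : R), x ∉ Ideal.span {P.f d} ⊔ P.J.map P.f → ∃ a b : P.A,
    d ∈ Ideal.span {a} ⊔ P.J ∧ b ∉ Ideal.span {a} ⊔ P.J ∧
      P.f b ∈ Ideal.span {x} ⊔ Ideal.span {P.f a} ⊔ P.J.map P.f

/-- The right ideal generated by the image of a right ideal. -/
def rmap {A R : Type} [Ring A] [Ring R] (f : A →+* R) (L : Submodule Aᵐᵒᵖ A) :
    Submodule Rᵐᵒᵖ R := Submodule.span Rᵐᵒᵖ (f '' L)

/-- The promise on the right side. -/
def RKept {A R : Type} [Ring A] [Ring R] (f : A →+* R) (L1 L2 : Submodule Aᵐᵒᵖ A) : Prop :=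
  ∀ x1 x2 : R, ¬ (x1 ∈ rmap f L1 ∧ x2 ∈ rmap f L2) → ∃ (r : R) (a1 a2 : A),
    ¬ (a1 ∈ L1 ∧ a2 ∈ L2) ∧ x1 * r - f a1 ∈ rmap f L1 ∧ x2 * r - f a2 ∈ rmap f L2

/-- The fixed starting data (STEP 0 is `Nonempty (Base F)`). -/
structure Base (F : Type) [Field F] : Type 1 where
  R : Type
  [rg : Ring R]
  [al : Algebra F R]
  [ct : Countable R]
  good : Good F R
  I : Ideal R
  mx : I.IsMaximal
  L1 : Submodule Rᵐᵒᵖ R
  L2 : Submodule Rᵐᵒᵖ R
  m1 : IsCoatom L1
  m2 : IsCoatom L2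
  ni : IsEmpty ((R ⧸ L1) ≃ₗ[Rᵐᵒᵖ] (R ⧸ L2))

attribute [instance] Base.rg Base.al Base.ct

variable {F : Type} [Field F]

/-- States. -/
structure St (B : Base F) : Type 1 where
  R : Type
  [rg : Ring R]
  [al : Algebra F R]
  [ct : Countable R]
  good : Good F R
  ι : B.R →ₐ[F] R
  mx : (B.I.map ι.toRingHom).IsMaximal
  rk : RKept ι.toRingHom B.L1 B.L2
  K : Set (Prom R)
  cK : K.Countable
  ok : ∀ P ∈ K, Reg P.A ∧ Injective P.f ∧ P.Kept

attribute [instance] St.rg St.al St.ct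

/-- The ring `R'` is a good extension of the state, and all promises are kept. -/
structure Nxt {B : Base F} (σ : St B) (R' : Type) [Ring R'] [Algebra F R']
    (g : σ.R →ₐ[F] R') : Prop where
  ct : Countable R'
  good : Good F R'
  mx : (B.I.map (g.comp σ.ι).toRingHom).IsMaximal
  rk : RKept (g.comp σ.ι).toRingHom B.L1 B.L2
  kept : ∀ P ∈ σ.K, (P.map g.toRingHom).Kept

/-- STEP G: gluing a simple module to the fixed one. -/
def StepG (B : Base F) : Prop :=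
  ∀ (σ : St B) (J : Ideal σ.R), J.IsMaximal →
    ∃ (R' : Type) (_ : Ring R') (_ : Algebra F R') (g : σ.R →ₐ[F] R'), Nxt σ R' g ∧
      ∃ u v : R', (∀ i ∈ B.I, g (σ.ι i) * v ∈ J.map g.toRingHom) ∧ u * v - 1 ∈ J.map g.toRingHom

/-- The cyclic module `R / J` is uniform. -/
def Unif {R : Type} [Ring R] (J : Ideal R) : Prop :=
  ∀ a ∉ J, ∀ b ∉ J, ∃ r s : R, r * a - s * b ∈ J ∧ r * a ∉ J

/-- The cyclic module `R / J` has zero socle. -/
def SocFree {R : Type} [Ring R] (J : Ideal R) : Prop :=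
  ∀ a ∉ J, ∃ r : R, r * a ∉ J ∧ ∀ s : R, a - s * (r * a) ∉ J

/-- STEP P: sealing a uniform module without socle and making it non-uniform. -/
def StepP (B : Base F) : Prop :=
  ∀ (σ : St B) (J : Ideal σ.R), J ≠ ⊤ → Unif J → SocFree J →
    ∃ (R' : Type) (_ : Ring R') (_ : Algebra F R') (g : σ.R →ₐ[F] R'), Nxt σ R' g ∧
      (Prom.mk σ.R g.toRingHom J).Kept ∧ ∃ x y : R', x ∉ J.map g.toRingHom ∧
        y ∉ J.map g.toRingHom ∧ ∀ r s : R', r * x - s * y ∈ J.map g.toRingHom →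
          r * x ∈ J.map g.toRingHom

section
variable {A R : Type} [Ring A] [Ring R]

theorem Reg.join (h : Reg A) (a b : A) : ∃ e p q : A, e = p * a + q * b ∧ a * e = a ∧ b * e = b := by
  obtain ⟨x, hx⟩ := h a
  obtain ⟨y, hy⟩ := h (b - b * (x * a))
  refine ⟨x * a + (1 - x * a) * y * (b - b * (x * a)), x - (1 - x * a) * y * b * x,
    (1 - x * a) * y, by noncomm_ring, ?_, ?_⟩
  · have : a * (1 - x * a) = 0 := by rw [mul_sub, mul_one, ← mul_assoc, hx, sub_self]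
    rw [mul_add, ← mul_assoc, hx, ← mul_assoc, ← mul_assoc, this]; simp
  · have : b * (1 - x * a) = b - b * (x * a) := by noncomm_ring
    rw [mul_add, ← mul_assoc b (_ * y), ← mul_assoc b (1 - _), this, hy]; abel

theorem Reg.join' (h : Reg A) (a b : A) :
    ∃ e p q : A, e = a * p + b * q ∧ e * a = a ∧ e * b = b := by
  obtain ⟨x, hx⟩ := h a
  obtain ⟨y, hy⟩ := h (b - a * x * b)
  refine ⟨a * x + (b - a * x * b) * y * (1 - a * x), x - x * b * y * (1 - a * x),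
    y * (1 - a * x), by noncomm_ring, ?_, ?_⟩
  · have : (1 - a * x) * a = 0 := by rw [sub_mul, one_mul, hx, sub_self]
    rw [add_mul, hx, mul_assoc _ (1 - a * x), this]; simp
  · have : (1 - a * x) * b = b - a * x * b := by noncomm_ring
    rw [add_mul, mul_assoc _ (1 - a * x), this, hy]; abel

theorem Reg.mem_map (h : Reg A) {f : A →+* R} {J : Ideal A} {x : R} :
    x ∈ J.map f ↔ ∃ j ∈ J, x * f j = x := by
  refine ⟨fun hx => ?_, fun ⟨j, h1, h2⟩ => h2 ▸ Ideal.mul_mem_left _ _ (Ideal.mem_map_of_mem f h1)⟩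
  induction hx using Submodule.span_induction with
  | mem x hx =>
    obtain ⟨j, h1, rfl⟩ := hx
    obtain ⟨y, hy⟩ := h j
    exact ⟨y * j, J.mul_mem_left y h1, by rw [← map_mul, ← mul_assoc, hy]⟩
  | zero => exact ⟨0, J.zero_mem, by simp⟩
  | add x y _ _ hx hy =>
    obtain ⟨a, h1, h2⟩ := hx
    obtain ⟨b, h3, h4⟩ := hy
    obtain ⟨e, p, q, h5, h6, h7⟩ := h.join a b
    refine ⟨e, h5 ▸ J.add_mem (J.mul_mem_left p h1) (J.mul_mem_left q h3), ?_⟩
    rw [add_mul, ← h2, ← h4, mul_assoc, mul_assoc, ← map_mul, ← map_mul, h6, h7]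
  | smul r x _ hx =>
    obtain ⟨a, h1, h2⟩ := hx
    exact ⟨a, h1, by rw [smul_eq_mul, mul_assoc, h2]⟩

theorem Reg.mem_rmap (h : Reg A) {f : A →+* R} {L : Submodule Aᵐᵒᵖ A} {x : R} :
    x ∈ rmap f L ↔ ∃ l ∈ L, f l * x = x := by
  refine ⟨fun hx => ?_, fun ⟨l, h1, h2⟩ => h2 ▸ Submodule.smul_mem (rmap f L)
    (MulOpposite.op x) (Submodule.subset_span ⟨l, h1, rfl⟩)⟩
  induction hx using Submodule.span_induction with
  | mem x hx =>
    obtain ⟨j, h1, rfl⟩ := hx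
    obtain ⟨y, hy⟩ := h j
    exact ⟨j * y, L.smul_mem (MulOpposite.op y) h1, by rw [← map_mul, hy]⟩
  | zero => exact ⟨0, L.zero_mem, by simp⟩
  | add x y _ _ hx hy =>
    obtain ⟨a, h1, h2⟩ := hx
    obtain ⟨b, h3, h4⟩ := hy
    obtain ⟨e, p, q, h5, h6, h7⟩ := h.join' a b
    refine ⟨e, h5 ▸ L.add_mem (L.smul_mem (MulOpposite.op p) h1)
      (L.smul_mem (MulOpposite.op q) h3), ?_⟩
    rw [mul_add, ← h2, ← h4, ← mul_assoc, ← mul_assoc, ← map_mul, ← map_mul, h6, h7]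
  | smul r x _ hx =>
    obtain ⟨a, h1, h2⟩ := hx
    exact ⟨a, h1, by rw [MulOpposite.smul_eq_mul_unop, ← mul_assoc, h2]⟩

/-- The fixed maximal ideal as a kept promise. -/
theorem kept_of_max {f : A →+* R} {I : Ideal A} (h : I.IsMaximal) (k : (I.map f).IsMaximal) :
    (Prom.mk A f I).Kept := by
  intro d x hx
  have hd : d ∈ I := by
    by_contra hd
    obtain ⟨y, c, h1, h2⟩ := h.exists_inv hd
    refine hx (mul_one x ▸ Ideal.mul_mem_left _ x ?_)
    rw [← map_one f, ← h2, map_add, map_mul]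
    exact Submodule.add_mem_sup (Ideal.mem_span_singleton'.2 ⟨_, rfl⟩) (Ideal.mem_map_of_mem f h1)
  refine ⟨0, 1, Submodule.mem_sup_right hd, by simpa using h.ne_top ∘ (Ideal.eq_top_iff_one _).2, ?_⟩
  obtain ⟨y, c, h1, h2⟩ := k.exists_inv fun e => hx (Submodule.mem_sup_right e)
  change f 1 ∈ _
  rw [map_one, ← h2]
  exact Submodule.add_mem_sup (Submodule.mem_sup_left (Ideal.mem_span_singleton'.2 ⟨_, rfl⟩)) h1

theorem max_of_kept {f : A →+* R} {I : Ideal A} (h : I.IsMaximal) (k : I.map f ≠ ⊤)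
    (hK : (Prom.mk A f I).Kept) : (I.map f).IsMaximal := by
  refine Ideal.isMaximal_iff.2 ⟨k ∘ (Ideal.eq_top_iff_one _).2, fun J x h1 h2 h3 => ?_⟩
  obtain ⟨a, b, -, h4, h5⟩ := hK 0 x (by simpa using h2)
  have ha : a ∈ I := by
    by_contra ha
    obtain ⟨y, c, k1, k2⟩ := h.exists_inv ha
    refine h4 (mul_one b ▸ Ideal.mul_mem_left _ b ?_)
    rw [← k2]
    exact Submodule.add_mem_sup (Ideal.mem_span_singleton'.2 ⟨_, rfl⟩) k1
  obtain ⟨y, c, k1, k2⟩ := h.exists_inv fun e => h4 (Submodule.mem_sup_right e)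
  have h6 : f b ∈ J := (sup_le (sup_le ((Ideal.span_singleton_le_iff_mem _).2 h3)
    ((Ideal.span_singleton_le_iff_mem _).2 (h1 (Ideal.mem_map_of_mem f ha)))) h1) h5
  rw [← map_one f, ← k2, map_add, map_mul]
  exact J.add_mem (J.mul_mem_left _ h6) (h1 (Ideal.mem_map_of_mem f k1))

end

end Pool.Agent.Lib.MP_1e63be_al.Z41
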