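import Pool.Agent.Lib.MP_1e63be_al.Z87.Basic
import Pool.Agent.Lib.MP_fecf72_lc.Gen

/-!
The forcing: countable good rings with promises, coded by reals.
-/

namespace Z41F

open Z87 Pool.Agent.Lib.MP_fecf72_lc Set Function

section
variable {F A R T : Type} [Field F] [Ring A] [Ring R] [Ring T] [Algebra F A] [Algebra F R]
  [Algebra F T]

theorem ext_comp {f : A → R} (g : R →ₐ[F] T) {h : A → T} (e : ∀ x, g (f x) = h x) (Q : RI A) :
    ext g (ext f Q) = ext h Q :=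
  le_antisymm (Submodule.span_le.2 (by rintro _ ⟨z, k, rfl⟩; exact ext_map f h g e k))
    (Submodule.span_le.2 (by rintro _ ⟨z, k, rfl⟩; exact e z ▸ ext_of g (ext_of f k)))

theorem lext_comp {f : A → R} (g : R →ₐ[F] T) {h : A → T} (e : ∀ x, g (f x) = h x) (Q : Ideal A) :
    lext g (lext f Q) = lext h Q :=
  le_antisymm (Submodule.span_le.2 (by rintro _ ⟨z, k, rfl⟩; exact lext_map f h g e k))
    (Submodule.span_le.2 (by rintro _ ⟨z, k, rfl⟩; exact e z ▸ lext_of g (lext_of f k)))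

theorem ess_comp {f : A → R} (g : R →ₐ[F] T) {h : A → T} (e : ∀ x, g (f x) = h x) {Q : RI A}
    (h1 : EssExt f Q) (h2 : EssExt g (ext f Q)) : EssExt h Q := fun x => by
  rw [← ext_comp g e]
  obtain k | ⟨r, c, k1, k2⟩ := h2 x
  · exact Or.inl k
  obtain ⟨s, d, k3, k4⟩ := (h1 c).resolve_left k1
  refine Or.inr ⟨r * g s, d, k3, RI.cast (Submodule.add_mem _ (RI.mul k2 (g s)) (ext_of g k4)) ?_⟩
  rw [map_sub, map_mul, e]; noncomm_ring

theorem less_comp {f : A → R} (g : R →ₐ[F] T) {h : A → T} (e : ∀ x, g (f x) = h x) {Q : Ideal A}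
    (h1 : LEssExt f Q) (h2 : LEssExt g (lext f Q)) : LEssExt h Q := fun x => by
  rw [← lext_comp g e]
  obtain k | ⟨r, c, k1, k2⟩ := h2 x
  · exact Or.inl k
  obtain ⟨s, d, k3, k4⟩ := (h1 c).resolve_left k1
  refine Or.inr ⟨g s * r, d, k3, ?_⟩
  convert Submodule.add_mem _ (Ideal.mul_mem_left _ (g s) k2) (lext_of g k4) using 1
  rw [map_sub, map_mul, e]; noncomm_ring

theorem ext_idA (J : RI R) : ext (AlgHom.id F R) J = J := by
  simp [Z87.ext]

theorem lext_idA (J : Ideal R) : lext (AlgHom.id F R) J = J := by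
  simp [lext]

theorem nu_wit (h : Good F A) {g : A →ₐ[F] T} (hg : Injective g) {K : RI A} (k : NU K) {y : A}
    (hy : g y ∉ ext g K) : ∃ c1 c2, g y * c1 ∉ ext g K ∧ g y * c2 ∉ ext g K ∧
      ∀ d1 d2, g y * c1 * d1 - g y * c2 * d2 ∈ ext g K → g y * c1 * d1 ∈ ext g K := by
  obtain ⟨c1, c2, h1, h2, h3⟩ := k y fun e => hy (ext_of g e)
  obtain ⟨i0, i1, j0, j1, a1, a2, a3, a4, -⟩ := h.lea
  refine ⟨g c1, g c2, fun e => h1 (ext_const h.reg g hg (by rwa [map_mul])),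
    fun e => h2 (ext_const h.reg g hg (by rwa [map_mul])), fun d1 d2 e => ?_⟩
  have b : ∀ {j i c : A}, j * i = c → ∀ d, g j * (g i * d) = g c * d := fun e d => by
    rw [← mul_assoc, ← map_mul, e]
  have := flat h.reg g (J := K) (J' := K) (c := y * c1 * j0 - y * c2 * j1) (d := y * c1 * j0)
    (fun z l => RI.cast (h3 (j0 * z) (j1 * z) (RI.cast l (by noncomm_ring))) (by noncomm_ring))
    (z := g i0 * d1 + g i1 * d2) (RI.cast e (by
      simp only [map_sub, map_mul, sub_mul, mul_add, mul_assoc, b a1, b a2, b a3, b a4]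
      simp [sub_eq_add_neg]))
  exact RI.cast this (by simp only [map_mul, mul_add, mul_assoc, b a1, b a3]; simp)

end

/-- The starting data. -/
structure Bs (F : Type) [Field F] : Type 1 where
  R : Type
  [rg : Ring R]
  [al : Algebra F R]
  [ct : Countable R]
  good : Good F R
  I : RI R
  L : Ideal R
  sI : SimpleF F I
  e : R → ℝ
  inj : Injective e

attribute [instance] Bs.rg Bs.al Bs.ct

variable {F : Type} [Field F] {B : Bs F}

/-- Conditions. -/
structure Cn (B : Bs F) : Type 1 where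
  R : Type
  [rg : Ring R]
  [al : Algebra F R]
  [ct : Countable R]
  good : Good F R
  ι : B.R →ₐ[F] R
  sI : SimpleF F (ext ι B.I)
  le : LEssExt ι B.L
  Q : Set (RI R)
  cQ : Q.Countable
  nu : ∀ J ∈ Q, NU J
  e : R → ℝ
  inj : Injective e
  eι : ∀ x, e (ι x) = B.e x

attribute [instance] Cn.rg Cn.al Cn.ct

/-- The order. -/
def Le (p q : Cn B) : Prop :=
  ∃ g : q.R →ₐ[F] p.R, (∀ x, p.e (g x) = q.e x) ∧ ∀ J ∈ q.Q, EssExt g J ∧ ext g J ∈ p.Q

theorem hinj {p q : Cn B} {g : q.R →ₐ[F] p.R} (h : ∀ x, p.e (g x) = q.e x) : Injective g :=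
  fun x y e => q.inj (by rw [← h, ← h, e])

theorem hι {p q : Cn B} {g : q.R →ₐ[F] p.R} (h : ∀ x, p.e (g x) = q.e x) (x : B.R) :
    g (q.ι x) = p.ι x := p.inj (by rw [h, q.eι, p.eι])

theorem Le.rfl (p : Cn B) : Le p p :=
  ⟨AlgHom.id F _, fun _ => _root_.rfl, fun J h => by
    rw [EssExt, ext_idA]
    exact ⟨fun x => (em _).imp_right fun k => ⟨1, x, k, by simp⟩, h⟩⟩

theorem fo : Fo (Le (B := B)) := by
  refine ⟨?_, fun _ => Le.rfl _, fun _ => Le.rfl _⟩
  rintro p q r ⟨g, h1, h2⟩ ⟨f, h3, h4⟩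
  refine ⟨g.comp f, fun x => (h1 _).trans (h3 x), fun J h => ?_⟩
  obtain ⟨a1, a2⟩ := h4 J h
  exact ⟨ess_comp g (fun _ => rfl) a1 (h2 _ a2).1,
    ext_comp g (f := f) (h := g.comp f) (fun _ => rfl) J ▸ (h2 _ a2).2⟩

/-- The largest condition. -/
def tp (B : Bs F) : Cn B where
  R := B.R
  good := B.good
  ι := AlgHom.id F _
  sI := (ext_idA (F := F) B.I).symm ▸ B.sI
  le := by
    rw [LEssExt, lext_idA]
    exact fun x => (em _).imp_right fun k => ⟨1, x, k, by simp⟩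
  Q := ∅
  cQ := countable_empty
  nu _ h := h.elim
  e := B.e
  inj := B.inj
  eι _ := rfl

theorem le_tp (p : Cn B) (_ : Le p p) : Le p (tp B) := ⟨p.ι, p.eι, fun _ h => h.elim⟩

theorem dl (p : ℕ → Cn B) (f : ∀ i j, i ≤ j → (p i).R →ₐ[F] (p j).R)
    (h1 : ∀ i j h x, (p j).e (f i j h x) = (p i).e x) :
    ∃ (T : Type) (_ : Ring T) (_ : Algebra F T) (_ : Countable T) (o : ∀ i, (p i).R →ₐ[F] T)
      (e : T → ℝ), Injective e ∧ (∀ i x, e (o i x) = (p i).e x) ∧ ∀ x, ∃ i y, o i y = x := by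
  have : DirectedSystem (fun i => (p i).R) (f · · ·) :=
    ⟨fun i x => (p i).inj (h1 _ _ _ x), fun k j i a b x => (p k).inj (by rw [h1, h1, h1])⟩
  refine ⟨DirectLimit (fun i => (p i).R) f, inferInstance, inferInstance, inferInstance,
    DirectLimit.Algebra.of (fun i => (p i).R) f,
    DirectLimit.lift f (fun i => (p i).e) fun i j h x => (h1 i j h x).symm,
    DirectLimit.lift_injective _ _ _ fun i => (p i).inj, fun _ _ => rfl, fun x => ?_⟩
  obtain ⟨i, y, rfl⟩ := DirectLimit.exists_eq_mk f x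
  exact ⟨i, y, rfl⟩

theorem lim (p : ℕ → Cn B) (hm : ∀ i j, i ≤ j → Le (p j) (p i)) :
    ∃ q : Cn B, (∀ n, Le q (p n)) ∧ ∀ x, ∃ n, q.e x ∈ range (p n).e := by
  choose f h1 h2 using hm
  obtain ⟨T, _, _, _, o, e, ei, he, su⟩ := dl p f h1
  have of : ∀ i j h x, o j (f i j h x) = o i x := fun i j h x => ei (by rw [he, he, h1])
  have oi : ∀ i, Injective (o i) := fun i x y k => (p i).inj (by rw [← he, ← he, k])
  have sur : ∀ n (x : T), ∃ m, n ≤ m ∧ ∃ y, o m y = x := fun n x => by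
    obtain ⟨i, y, rfl⟩ := su x
    exact ⟨max n i, le_max_left _ _, f _ _ (le_max_right _ _) y, of _ _ _ _⟩
  have oι : ∀ m x, o m ((p m).ι x) = (o 0).comp (p 0).ι x := fun m x =>
    ei (by rw [he, (p m).eι, ← (p 0).eι, ← he]; rfl)
  refine ⟨{ R := T
            good := ⟨?_, fun x => ?_, fun x k => ?_, ?_, fun x k => ?_⟩
            ι := (o 0).comp (p 0).ι
            sI := ⟨⟨?_, fun x k => ?_⟩, fun x k => ?_⟩
            le := fun x => ?_
            Q := ⋃ n, ext (o n) '' (p n).Q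
            cQ := countable_iUnion fun n => (p n).cQ.image _
            nu := ?_
            e := e
            inj := ei
            eι := fun x => (he _ _).trans ((p 0).eι x) }, fun n => ⟨o n, he n, fun J k => ⟨fun x => ?_,
              mem_iUnion.2 ⟨n, J, k, rfl⟩⟩⟩, fun x => ?_⟩
  · exact fun k => (p 0).good.nt (oi 0 (by rw [map_one, map_zero, k]))
  · obtain ⟨m, -, y, rfl⟩ := sur 0 x
    obtain ⟨z, k⟩ := (p m).good.reg y
    exact ⟨o m z, by rw [← map_mul, ← map_mul, k]⟩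
  · obtain ⟨m, -, y, rfl⟩ := sur 0 x
    obtain ⟨s, t, l⟩ := (p m).good.pi y fun l => k (by rw [l, map_zero])
    exact ⟨o m s, o m t, by rw [← map_mul, ← map_mul, l, map_one]⟩
  · obtain ⟨i0, i1, j0, j1, a1, a2, a3, a4, a5⟩ := (p 0).good.lea
    refine ⟨o 0 i0, o 0 i1, o 0 j0, o 0 j1, ?_⟩
    simp only [← map_mul, ← map_add, a1, a2, a3, a4, a5, map_one, map_zero, and_self]
  · obtain ⟨m, -, y, rfl⟩ := sur 0 x
    obtain ⟨l, rfl⟩ := (p m).good.cen y fun z => oi m (by rw [map_mul, map_mul, k])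
    exact ⟨l, (o m).commutes l⟩
  · rw [← ext_comp (o 0) (oι 0), ← map_one (o 0)]
    exact fun k => (p 0).sI.1.1 (ext_const (p 0).good.reg _ (oi 0) k)
  · obtain ⟨m, -, y, rfl⟩ := sur 0 x
    rw [← ext_comp (o m) (oι m)] at k ⊢
    obtain ⟨c, l⟩ := (p m).sI.1.2 y fun l => k (ext_of _ l)
    exact ⟨o m c, by simpa using ext_of (o m) l⟩
  · obtain ⟨m, -, y, rfl⟩ := sur 0 x
    rw [← ext_comp (o m) (oι m)] at k ⊢
    obtain ⟨c, l⟩ := (p m).sI.2 y fun j l => ext_const (p m).good.reg _ (oi m)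
      (by rw [map_mul]; exact k _ (ext_of _ l))
    exact ⟨c, by simpa using ext_of (o m) l⟩
  · obtain ⟨m, -, y, rfl⟩ := sur 0 x
    rw [← lext_comp (o m) (oι m)]
    exact ((p m).le y).imp (lext_of _) fun ⟨r, c, a1, a2⟩ =>
      ⟨o m r, c, a1, by rw [← oι m, ← map_mul, ← map_sub]; exact lext_of _ a2⟩
  · intro J k x l
    obtain ⟨n, K, k', rfl⟩ := mem_iUnion.1 k
    obtain ⟨m, a, y, rfl⟩ := sur n x
    rw [← ext_comp (o m) (of n m a)] at l ⊢
    exact nu_wit (p m).good (oi m) ((p m).nu _ (h2 n m a K k').2) l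
  · obtain ⟨m, a, y, rfl⟩ := sur n x
    rw [← ext_comp (o m) (of n m a)]
    exact ((h2 n m a J k).1 y).imp (ext_of _) fun ⟨r, c, a1, a2⟩ =>
      ⟨o m r, c, a1, by rw [← of n m a, ← map_mul, ← map_sub]; exact ext_of _ a2⟩
  · obtain ⟨m, -, y, rfl⟩ := sur 0 x
    exact ⟨m, y, (he _ _).symm⟩

theorem ext_emb {A T : Type} [Countable T] {f : A → T} (hf : Injective f) {e : A → ℝ}
    (he : Injective e) : ∃ e' : T → ℝ, Injective e' ∧ ∀ x, e' (f x) = e x := by
  classical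
  have : Countable A := hf.countable
  have : Infinite ↥(range e)ᶜ := Set.infinite_coe_iff.2 fun k => Cardinal.not_countable_real
    (by rw [← union_compl_self (range e)]; exact (countable_range e).union k.countable)
  obtain ⟨u, hu⟩ := exists_injective_nat T
  let v := Infinite.natEmbedding ↥(range e)ᶜ
  refine ⟨extend f e fun x => (v (u x)).1, fun x y k => ?_, fun x => hf.extend_apply _ _ x⟩
  by_cases a : ∃ a, f a = x <;> by_cases b : ∃ a, f a = y
  · obtain ⟨a, rfl⟩ := a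
    obtain ⟨b, rfl⟩ := b
    rw [hf.extend_apply, hf.extend_apply] at k
    rw [he k]
  · obtain ⟨a, rfl⟩ := a
    rw [hf.extend_apply, extend_apply' _ _ _ b] at k
    exact ((v (u y)).2 ⟨a, k⟩).elim
  · obtain ⟨b, rfl⟩ := b
    rw [hf.extend_apply, extend_apply' _ _ _ a] at k
    exact ((v (u x)).2 ⟨b, k.symm⟩).elim
  · rw [extend_apply' _ _ _ a, extend_apply' _ _ _ b] at k
    exact hu (v.injective (Subtype.ext k))

/-- The hypothesis of a step. -/
def Hyp {R : Type} [Ring R] (J : RI R) : Prop := MaxR J ∨ (Unif J ∧ SocFree J)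

/-- The conclusion of a step. -/
def Con (p q : Cn B) (J : RI p.R) : Prop :=
  ∃ g : p.R →ₐ[F] q.R, (∀ x, q.e (g x) = p.e x) ∧
    (IsoIJ g (ext p.ι B.I) J ∨ (KeptS g J ∧ ext g J ∈ q.Q))

theorem step (h : St_STEP F) (p : Cn B) (S : Set p.R) :
    ∃ q, Le q p ∧ ∀ J : RI p.R, ↑J = S → Hyp J → Con p q J := by
  by_cases k : ∃ J : RI p.R, ↑J = S ∧ Hyp J
  swap
  · exact ⟨p, Le.rfl p, fun J a b => (k ⟨J, a, b⟩).elim⟩
  obtain ⟨J, rfl, k⟩ := k
  obtain ⟨T, _, _, _, f, h1, h2⟩ := h p.R p.good _ p.sI _ p.cQ p.nu {lext p.ι B.L}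
    (countable_singleton _) J k
  obtain ⟨e, a1, a2⟩ := ext_emb h1.inj p.inj
  refine ⟨{ R := T
            good := h1.good
            ι := f.comp p.ι
            sI := ext_comp f (f := p.ι) (h := f.comp p.ι) (fun _ => rfl) _ ▸ h1.simple
            le := less_comp f (fun _ => rfl) p.le (h1.less _ rfl)
            Q := ext f '' p.Q ∪ {K | K = ext f J ∧ NU K}
            cQ := (p.cQ.image _).union ((countable_singleton _).mono fun _ l => l.1)
            nu := ?_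
            e := e
            inj := a1
            eι := fun x => (a2 _).trans (p.eι x) },
    ⟨f, a2, fun K l => ⟨h1.ess K l, Or.inl ⟨K, l, rfl⟩⟩⟩, fun J' l _ => ?_⟩
  · rintro _ (⟨K, l, rfl⟩ | l)
    exacts [h1.nu K l, l.2]
  · obtain rfl := SetLike.coe_injective l
    exact ⟨f, a2, h2.imp_right fun l => ⟨l.1, Or.inr ⟨rfl, l.2⟩⟩⟩

end Z41F
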