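import Pool.Agent.Lib.MP_fecf72_lc.Defs
import Pool.Agent.Lib.MP_1e63be_al.Defs

namespace Pool.Agent.Lib.MP_1e63be_al.Z41

open Pool.Agent.Lib.MP_fecf72_lc Set

/-- The graph of a function between coded types. -/
noncomputable def gr {α β : Type} (c : α → V) (d : β → V) (f : α → β) : V :=
  img univ fun a => ZFSet.pair (c a) (d (f a))

/-- The graph of a binary operation between coded types. -/
noncomputable def gr2 {α β γ : Type} (c : α → V) (d : β → V) (e : γ → V) (f : α → β → γ) : V :=
  gr (fun z : α × β => ZFSet.pair (c z.1) (d z.2)) e fun z => f z.1 z.2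

/-- The ring `S`, with its elements coded by `c`, belongs to `M`. -/
structure RingIn (M : Set V) (S : Type) [Ring S] (c : S → V) : Prop where
  inj : Function.Injective c
  mem : img univ c ∈ M
  add : gr2 c c c (· + ·) ∈ M
  mul : gr2 c c c (· * ·) ∈ M

/-- A left `S`-module that belongs to `M`, with its elements coded by `d`. -/
structure ModIn (M : Set V) (S : Type) [Ring S] (c : S → V) : Type 1 where
  T : Type
  [grp : AddCommGroup T]
  [mod : Module S T]
  d : T → V
  inj : Function.Injective d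
  mem : img univ d ∈ M
  add : gr2 d d d (· + ·) ∈ M
  smul : gr2 c d d (· • ·) ∈ M

attribute [instance] ModIn.grp ModIn.mod

variable {M : Set V} {S : Type} [Ring S] {c : S → V}

/-- In `M`, the module is pure-injective. -/
def ModIn.PureInj (N : ModIn M S c) : Prop :=
  ∀ (A B : ModIn M S c) (f : A.T →ₗ[S] B.T), gr A.d B.d f ∈ M → IsPureEmb f →
    ∀ g : A.T →ₗ[S] N.T, gr A.d N.d g ∈ M →
      ∃ h : B.T →ₗ[S] N.T, gr B.d N.d h ∈ M ∧ h ∘ₗ f = g

/-- In `M`, the module is indecomposable. -/
def ModIn.Indec (N : ModIn M S c) : Prop :=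
  Nontrivial N.T ∧ ∀ A B : Submodule S N.T, img (A : Set N.T) N.d ∈ M →
    img (B : Set N.T) N.d ∈ M → IsCompl A B → A = ⊥ ∨ B = ⊥

/-- Isomorphism in `M` of indecomposable pure-injective modules of `M`. -/
def IsoIn (A B : {N : ModIn M S c // N.Indec ∧ N.PureInj}) : Prop :=
  ∃ e : A.1.T ≃ₗ[S] B.1.T, gr A.1.d B.1.d e ∈ M

/-- The Ziegler spectrum of left `S`-modules as computed in `M`. -/
def ZgIn (M : Set V) (S : Type) [Ring S] (c : S → V) : Type 1 :=
  Quot (IsoIn (M := M) (S := S) (c := c))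

/-- The Ziegler topology, generated by the sets of the pp pairs. -/
instance zgInTop : TopologicalSpace (ZgIn M S c) :=
  TopologicalSpace.generateFrom {U | ∃ φ ψ : PPCond S,
    U = {x | ∃ N, Quot.mk IsoIn N = x ∧ ¬ φ.eval N.1.T ⊆ ψ.eval N.1.T}}

end Pool.Agent.Lib.MP_1e63be_al.Z41
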