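import Pool.Agent.Lib.MP_d63cb0_gt.H15.Base
import Pool.Agent.Lib.MP_1e63be_al.Z41.Defs

/-!
A calculus of predicates and functions on coded types that belong to a model of ZFC.
-/

namespace Pool.Agent.Lib.MP_1e63be_al.Z41

open Pool.Agent.Lib.MP_fecf72_lc Pool.Agent.Lib.MP_d63cb0_gt.H15 Set Function

/-- Predicates on assignments that are given by a formula. -/
def Df (M : Set V) (P : List V → Prop) : Prop :=
  ∃ φ : Fm, ∀ v : List V, (∀ x ∈ v, x ∈ M) → (Sat M φ v ↔ P v)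

section
variable {M : Set V} {P Q : List V → Prop}

theorem Df.mem (i j : ℕ) : Df M fun v => v.getD i ∅ ∈ v.getD j ∅ := ⟨.mem i j, fun _ _ => Iff.rfl⟩
theorem Df.eq (i j : ℕ) : Df M fun v => v.getD i ∅ = v.getD j ∅ := ⟨.eq i j, fun _ _ => Iff.rfl⟩
theorem Df.not (h : Df M P) : Df M fun v => ¬ P v :=
  let ⟨φ, h⟩ := h; ⟨.not φ, fun v k => not_congr (h v k)⟩
theorem Df.and (h : Df M P) (k : Df M Q) : Df M fun v => P v ∧ Q v :=
  let ⟨φ, h⟩ := h; let ⟨ψ, k⟩ := k; ⟨.and φ ψ, fun v l => and_congr (h v l) (k v l)⟩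
theorem Df.all (h : Df M P) : Df M fun v => ∀ x ∈ M, P (x :: v) :=
  let ⟨φ, h⟩ := h
  ⟨.all φ, fun v k => forall₂_congr fun x hx => h _ (List.forall_mem_cons.2 ⟨hx, k⟩)⟩
theorem Df.congr (h : Df M P) (k : ∀ v : List V, (∀ x ∈ v, x ∈ M) → (P v ↔ Q v)) : Df M Q :=
  let ⟨φ, h⟩ := h; ⟨φ, fun v l => (h v l).trans (k v l)⟩
theorem Df.ex (h : Df M P) : Df M fun v => ∃ x ∈ M, P (x :: v) :=
  h.not.all.not.congr fun _ _ => by simp
theorem Df.or (h : Df M P) (k : Df M Q) : Df M fun v => P v ∨ Q v :=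
  (h.not.and k.not).not.congr fun _ _ => by tauto
theorem Df.iff (h : Df M P) (k : Df M Q) : Df M fun v => P v ↔ Q v :=
  ((h.and k).or (h.not.and k.not)).congr fun _ _ => by tauto

variable [hM : Fact (IsZFC M)]

theorem tr_mem {x y : V} (hx : x ∈ M) (h : y ∈ x) : y ∈ M := hM.out.trans x hx y h

theorem empty_mem : (∅ : V) ∈ M :=
  let ⟨_, h1, h2, _⟩ := hM.out.infinity; tr_mem h1 h2

theorem getD_mem {v : List V} (h : ∀ x ∈ v, x ∈ M) (i : ℕ) : v.getD i ∅ ∈ M := by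
  rcases lt_or_ge i v.length with k | k
  · rw [List.getD_eq_getElem _ _ k]; exact h _ (List.getElem_mem k)
  · rw [List.getD_eq_default _ _ k]; exact empty_mem

theorem pair_mem {x y : V} (hx : x ∈ M) (hy : y ∈ M) : ZFSet.pair x y ∈ M := by
  have := hM.out.pairing _ (hM.out.pairing x hx x hx) _ (hM.out.pairing x hx y hy)
  simpa [ZFSet.pair] using this

theorem ext_mem {x y : V} (hx : x ∈ M) (hy : y ∈ M) : (∀ z ∈ M, z ∈ x ↔ z ∈ y) ↔ x = y :=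
  ⟨fun h => ZFSet.ext fun z => ⟨fun k => (h z (tr_mem hx k)).1 k, fun k => (h z (tr_mem hy k)).2 k⟩,
    fun h _ _ => h ▸ Iff.rfl⟩

theorem Df.upair (i j k : ℕ) : Df M fun v => v.getD i ∅ = {v.getD j ∅, v.getD k ∅} :=
  ((Df.mem 0 (i + 1)).iff ((Df.eq 0 (j + 1)).or (Df.eq 0 (k + 1)))).all.congr fun v hv => by
    rw [← ext_mem (getD_mem hv i) (hM.out.pairing _ (getD_mem hv j) _ (getD_mem hv k))]
    simp

theorem Df.pair (i j k : ℕ) : Df M fun v => v.getD i ∅ = ZFSet.pair (v.getD j ∅) (v.getD k ∅) :=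
  ((Df.mem 0 (i + 1)).iff ((Df.upair 0 (j + 1) (j + 1)).or
    (Df.upair 0 (j + 1) (k + 1)))).all.congr fun v hv => by
    rw [← ext_mem (getD_mem hv i) (pair_mem (getD_mem hv j) (getD_mem hv k))]
    simp [ZFSet.pair]

theorem Df.pm (i j k : ℕ) : Df M fun v => ZFSet.pair (v.getD i ∅) (v.getD j ∅) ∈ v.getD k ∅ :=
  ((Df.pair 0 (i + 1) (j + 1)).and (Df.mem 0 (k + 1))).ex.congr fun v hv =>
    ⟨fun ⟨_, _, h1, h2⟩ => by simpa using (show _ = _ from h1) ▸ h2,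
      fun h => ⟨_, pair_mem (getD_mem hv i) (getD_mem hv j), rfl, h⟩⟩

theorem Df.sep (h : Df M P) {v : List V} (hv : ∀ x ∈ v, x ∈ M) {a : V} (ha : a ∈ M) :
    ∃ b ∈ M, ∀ x, x ∈ b ↔ x ∈ a ∧ P (x :: v) := by
  obtain ⟨φ, h⟩ := h
  obtain ⟨b, h1, h2⟩ := hM.out.separation φ v hv a ha
  exact ⟨b, h1, fun x => (h2 x).trans (and_congr_right fun k =>
    h _ (List.forall_mem_cons.2 ⟨tr_mem ha k, hv⟩))⟩

theorem prod_mem {X Y : V} (hX : X ∈ M) (hY : Y ∈ M) :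
    ∃ Z ∈ M, ∀ z, z ∈ Z ↔ ∃ x ∈ X, ∃ y ∈ Y, z = ZFSet.pair x y := by
  obtain ⟨P1, a1, a2⟩ := hM.out.power _ (hM.out.union _ (hM.out.pairing X hX Y hY))
  obtain ⟨P2, b1, b2⟩ := hM.out.power _ a1
  obtain ⟨Z, c1, c2⟩ := (((Df.mem 1 3).and ((Df.mem 0 4).and (Df.pair 2 1 0))).ex.ex (M := M)).sep
    (v := [X, Y]) (by simp [hX, hY]) b1
  refine ⟨Z, c1, fun z => (c2 z).trans ⟨fun ⟨_, x, _, y, _, h1, h2, h3⟩ => ⟨x, h1, y, h2, h3⟩, ?_⟩⟩
  rintro ⟨x, h1, y, h2, rfl⟩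
  have hx := tr_mem hX h1
  have hy := tr_mem hY h2
  refine ⟨(b2 _ (pair_mem hx hy)).2 fun w hw => (a2 _ (tr_mem (pair_mem hx hy) hw)).2 fun u hu => ?_,
    x, hx, y, hy, h1, h2, rfl⟩
  simp only [ZFSet.pair, ZFSet.mem_pair] at hw
  rcases hw with rfl | rfl
  · exact ZFSet.mem_sUnion.2 ⟨X, by simp, by simp at hu; rwa [hu]⟩
  · rcases ZFSet.mem_pair.1 hu with rfl | rfl
    · exact ZFSet.mem_sUnion.2 ⟨X, by simp, h1⟩
    · exact ZFSet.mem_sUnion.2 ⟨Y, by simp, h2⟩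

end

/-- Types whose elements are coded by the elements of a set of `M`. -/
class Cd (M : Set V) (α : Type) where
  c : α → V
  inj : Injective c
  mem : img univ c ∈ M

/-- The code. -/
abbrev cd (M : Set V) {α : Type} [Cd M α] : α → V := Cd.c M

/-- Predicates that belong to `M`. -/
structure MP (M : Set V) {α : Type} [Cd M α] (p : α → Prop) : Prop where
  out : img {a | p a} (cd M) ∈ M

/-- Functions that belong to `M`. -/
structure MF (M : Set V) {α β : Type} [Cd M α] [Cd M β] (f : α → β) : Prop where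
  out : gr (cd M) (cd M) f ∈ M

variable {M : Set V} [hM : Fact (IsZFC M)] {α β γ : Type} [Cd M α] [Cd M β] [Cd M γ]

theorem cd_mem (a : α) : cd M a ∈ M := tr_mem Cd.mem (mem_img.2 ⟨a, trivial, rfl⟩)

noncomputable instance : Cd M (α × β) where
  c z := ZFSet.pair (cd M z.1) (cd M z.2)
  inj _ _ h := Prod.ext (Cd.inj (ZFSet.pair_inj.1 h).1) (Cd.inj (ZFSet.pair_inj.1 h).2)
  mem := by
    obtain ⟨Z, h1, h2⟩ := prod_mem (Cd.mem (M := M) (α := α)) (Cd.mem (M := M) (α := β))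
    convert h1
    ext z
    simp only [h2, mem_img]
    exact ⟨fun ⟨a, _, h⟩ => ⟨_, ⟨a.1, trivial, rfl⟩, _, ⟨a.2, trivial, rfl⟩, h.symm⟩,
      fun ⟨_, ⟨a, _, rfl⟩, _, ⟨b, _, rfl⟩, h⟩ => ⟨(a, b), trivial, h.symm⟩⟩

theorem cd_prod (a : α) (b : β) : cd M (a, b) = ZFSet.pair (cd M a) (cd M b) := rfl

omit hM in
theorem mem_mp {p : α → Prop} {a : α} : cd M a ∈ img {a | p a} (cd M) ↔ p a := mem_img' Cd.inj

omit hM in
theorem mem_gr {f : α → β} {a : α} {y : V} :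
    ZFSet.pair (cd M a) y ∈ gr (cd M) (cd M) f ↔ cd M (f a) = y :=
  (pair_mem_gr Cd.inj).trans (and_iff_right trivial)

theorem MP.of_df {P : List V → Prop} (h : Df M P) {v : List V} (hv : ∀ x ∈ v, x ∈ M)
    {p : α → Prop} (k : ∀ a, p a ↔ P (cd M a :: v)) : MP M p := by
  obtain ⟨b, h1, h2⟩ := h.sep hv (Cd.mem (M := M) (α := α))
  constructor
  convert h1
  ext x
  simp only [h2, mem_img]
  constructor
  · rintro ⟨a, h, rfl⟩
    exact ⟨⟨a, trivial, rfl⟩, (k a).1 h⟩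
  · rintro ⟨⟨a, _, rfl⟩, h⟩
    exact ⟨a, (k a).2 h, rfl⟩

omit hM in
theorem MP.congr {p q : α → Prop} (h : MP M p) (k : ∀ a, p a ↔ q a) : MP M q :=
  (funext fun a => propext (k a) : p = q) ▸ h

theorem mf_iff {f : α → β} : MF M f ↔ MP M fun z : α × β => f z.1 = z.2 := by
  refine Iff.trans ⟨MF.out, MF.mk⟩ (Iff.trans ?_ ⟨MP.mk, MP.out⟩)
  rw [show gr (cd M) (cd M) f = img {z : α × β | f z.1 = z.2} (cd M) from ZFSet.ext fun x => by
    simp only [gr, mem_img]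
    exact ⟨fun ⟨a, _, e⟩ => ⟨(a, f a), rfl, e⟩, by
      rintro ⟨⟨a, b⟩, h, e⟩
      obtain rfl : f a = b := h
      exact ⟨a, trivial, e⟩⟩]

theorem MP.of_mem {x : V} (h : x ∈ M) : MP M fun a : α => cd M a ∈ x :=
  MP.of_df (Df.mem 0 1) (v := [x]) (by simpa) fun _ => Iff.rfl

theorem MP.not {p : α → Prop} (h : MP M p) : MP M fun a => ¬ p a :=
  MP.of_df (Df.mem 0 1).not (List.forall_mem_singleton.2 h.out) fun _ => not_congr mem_mp.symm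

theorem MP.and {p q : α → Prop} (h : MP M p) (k : MP M q) : MP M fun a => p a ∧ q a :=
  MP.of_df ((Df.mem 0 1).and (Df.mem 0 2)) (v := [_, _])
    (List.forall_mem_cons.2 ⟨h.out, List.forall_mem_singleton.2 k.out⟩)
    fun _ => and_congr mem_mp.symm mem_mp.symm

theorem MP.or {p q : α → Prop} (h : MP M p) (k : MP M q) : MP M fun a => p a ∨ q a :=
  (h.not.and k.not).not.congr fun _ => by tauto

theorem MP.imp {p q : α → Prop} (h : MP M p) (k : MP M q) : MP M fun a => p a → q a :=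
  (h.and k.not).not.congr fun _ => by tauto

theorem MP.iff {p q : α → Prop} (h : MP M p) (k : MP M q) : MP M fun a => p a ↔ q a :=
  ((h.imp k).and (k.imp h)).congr fun _ => by tauto

theorem MP.ex {p : α → β → Prop} (h : MP M fun z : α × β => p z.1 z.2) :
    MP M fun a => ∃ b, p a b :=
  MP.of_df (Df.pm 1 0 2).ex (List.forall_mem_singleton.2 h.out) fun a =>
    ⟨fun ⟨b, k⟩ => ⟨_, cd_mem b, (mem_mp (a := (a, b))).2 k⟩, fun ⟨_, _, k⟩ => by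
      obtain ⟨⟨a', b⟩, k1, k2⟩ := mem_img.1 k
      obtain rfl : a' = a := Cd.inj (ZFSet.pair_inj.1 k2).1
      exact ⟨b, k1⟩⟩

theorem MP.all {p : α → β → Prop} (h : MP M fun z : α × β => p z.1 z.2) :
    MP M fun a => ∀ b, p a b :=
  (MP.ex (p := fun a b => ¬ p a b) h.not).not.congr fun _ => by simp

theorem MP.comp {p : β → Prop} (h : MP M p) {f : α → β} (k : MF M f) : MP M fun a => p (f a) :=
  MP.of_df ((Df.pm 1 0 2).and (Df.mem 0 3)).ex (v := [_, _])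
    (List.forall_mem_cons.2 ⟨k.out, List.forall_mem_singleton.2 h.out⟩) fun a =>
    ⟨fun l => ⟨_, cd_mem (f a), mem_gr.2 rfl, mem_mp.2 l⟩,
      fun ⟨_, _, l1, l2⟩ => mem_mp.1 ((mem_gr.1 l1).symm ▸ l2 :)⟩

theorem mp_eqc : MP M fun z : α × β => cd M z.1 = cd M z.2 :=
  MP.of_df (Df.pair 1 0 0).ex (v := []) (by simp) fun z =>
    ⟨fun h => ⟨_, cd_mem z.1, congrArg (ZFSet.pair _) h.symm⟩,
      fun ⟨_, _, h⟩ => (ZFSet.pair_inj.1 h).1.trans (ZFSet.pair_inj.1 h).2.symm⟩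

theorem mp_memc : MP M fun z : α × β => cd M z.1 ∈ cd M z.2 :=
  MP.of_df ((Df.pair 2 1 0).and (Df.mem 1 0)).ex.ex (v := []) (by simp) fun z =>
    ⟨fun h => ⟨_, cd_mem z.1, _, cd_mem z.2, rfl, h⟩, fun ⟨_, _, _, _, h, k⟩ =>
      (ZFSet.pair_inj.1 h).1.symm ▸ (ZFSet.pair_inj.1 h).2.symm ▸ k⟩

theorem MF.of_cd {f : α → β} (h : ∀ a, cd M (f a) = cd M a) : MF M f :=
  mf_iff.2 (mp_eqc.congr fun z => by rw [← h]; exact Cd.inj.eq_iff)

theorem mf_id : MF M fun a : α => a := MF.of_cd fun _ => rfl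

theorem mf_fst : MF M fun z : α × β => z.1 :=
  mf_iff.2 (MP.of_df ((Df.pair 0 2 1).and (Df.pair 3 0 2)).ex.ex.ex (v := []) (by simp) fun z =>
    ⟨fun h => ⟨_, cd_mem z.1.1, _, cd_mem z.1.2, _, cd_mem z.1, rfl,
      congrArg (fun t => ZFSet.pair _ (cd M t)) h.symm⟩, fun ⟨_, _, _, _, _, _, h, k⟩ =>
      Cd.inj ((ZFSet.pair_inj.1 ((ZFSet.pair_inj.1 k).1.trans h)).1.trans
        (ZFSet.pair_inj.1 k).2.symm)⟩)

theorem mf_snd : MF M fun z : α × β => z.2 :=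
  mf_iff.2 (MP.of_df ((Df.pair 0 2 1).and (Df.pair 3 0 1)).ex.ex.ex (v := []) (by simp) fun z =>
    ⟨fun h => ⟨_, cd_mem z.1.1, _, cd_mem z.1.2, _, cd_mem z.1, rfl,
      congrArg (fun t => ZFSet.pair _ (cd M t)) h.symm⟩, fun ⟨_, _, _, _, _, _, h, k⟩ =>
      Cd.inj ((ZFSet.pair_inj.1 ((ZFSet.pair_inj.1 k).1.trans h)).2.trans
        (ZFSet.pair_inj.1 k).2.symm)⟩)

theorem MF.comp {g : β → γ} (h : MF M g) {f : α → β} (k : MF M f) : MF M fun a => g (f a) :=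
  mf_iff.2 (MP.of_df ((Df.pair 3 2 0).and ((Df.pm 2 1 4).and (Df.pm 1 0 5))).ex.ex.ex (v := [_, _])
    (List.forall_mem_cons.2 ⟨k.out, List.forall_mem_singleton.2 h.out⟩) fun z =>
    ⟨fun l => ⟨_, cd_mem z.1, _, cd_mem (f z.1), _, cd_mem z.2, rfl, mem_gr.2 rfl,
      mem_gr.2 (congrArg _ l)⟩, fun ⟨_, _, _, _, _, _, l1, l2, l3⟩ => by
      obtain ⟨rfl, rfl⟩ := ZFSet.pair_inj.1 l1
      obtain rfl := mem_gr.1 l2
      exact Cd.inj (mem_gr.1 l3)⟩)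

theorem MF.pair {f : α → β} {g : α → γ} (h : MF M f) (k : MF M g) : MF M fun a => (f a, g a) :=
  mf_iff.2 (MP.of_df ((Df.pair 0 2 1).and ((Df.pair 4 3 0).and
    ((Df.pm 3 2 5).and (Df.pm 3 1 6)))).ex.ex.ex.ex (v := [_, _])
    (List.forall_mem_cons.2 ⟨h.out, List.forall_mem_singleton.2 k.out⟩) fun z =>
    ⟨fun l => ⟨_, cd_mem z.1, _, cd_mem (f z.1), _, cd_mem (g z.1), _, cd_mem (f z.1, g z.1), rfl,
      congrArg (fun t => ZFSet.pair _ (cd M t)) l.symm, mem_gr.2 rfl, mem_gr.2 rfl⟩,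
      fun ⟨_, _, _, _, _, _, _, _, l1, l2, l3, l4⟩ => by
      obtain ⟨rfl, rfl⟩ := ZFSet.pair_inj.1 l2
      obtain rfl := mem_gr.1 l3
      obtain rfl := mem_gr.1 l4
      exact Cd.inj (show cd M (f z.1, g z.1) = cd M z.2 from l1.symm)⟩)

theorem MF.fst {f : α → β × γ} (h : MF M f) : MF M fun a => (f a).1 := mf_fst.comp h
theorem MF.snd {f : α → β × γ} (h : MF M f) : MF M fun a => (f a).2 := mf_snd.comp h

theorem MP.eq {f g : α → β} (h : MF M f) (k : MF M g) : MP M fun a => f a = g a :=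
  ((mp_eqc (α := β) (β := β)).comp (h.pair k)).congr fun _ => Cd.inj.eq_iff

theorem mf_const (b : β) : MF M fun _ : α => b :=
  mf_iff.2 ((MP.of_df (Df.eq 0 1) (v := [cd M b]) (by simpa using cd_mem b)
    (p := fun y => b = y) fun _ => ⟨fun h => h ▸ rfl, fun h => Cd.inj h.symm⟩).comp mf_snd)

theorem MF.lift {f : β → γ} (h : MF M f) (hf : Injective f) {g : α → β}
    (k : MF M fun a => f (g a)) : MF M g :=
  mf_iff.2 ((MP.eq (k.comp mf_fst) (h.comp mf_snd)).congr fun _ => hf.eq_iff)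

theorem mp_true : MP M fun _ : α => True := (MP.eq mf_id mf_id).congr fun _ => by simp

/-- Coding through an injection with range in `M`. -/
@[reducible] noncomputable def Cd.ofInj {δ : Type} (f : δ → α) (hf : Injective f)
    (h : MP M fun a => a ∈ range f) : Cd M δ where
  c a := cd M (f a)
  inj := Cd.inj.comp hf
  mem := by
    convert h.out using 1
    ext x
    simp only [mem_img]
    exact ⟨fun ⟨a, _, e⟩ => ⟨_, ⟨a, rfl⟩, e⟩, fun ⟨_, ⟨a, rfl⟩, e⟩ => ⟨a, trivial, e⟩⟩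

/-- The power set in `M`. -/
def PS (M : Set V) (α : Type) [Cd M α] : Type := {s : Set α // MP M fun a => a ∈ s}

noncomputable instance : Cd M (PS M α) where
  c s := img s.1 (cd M)
  inj _ _ h := Subtype.ext (img_inj Cd.inj h)
  mem := by
    obtain ⟨y, h1, h2⟩ := hM.out.power _ (Cd.mem (M := M) (α := α))
    convert h1
    ext w
    rw [mem_img]
    constructor
    · rintro ⟨s, -, rfl⟩
      refine (h2 _ s.2.out).2 fun u hu => ?_
      obtain ⟨a, -, rfl⟩ := mem_img.1 hu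
      exact mem_img.2 ⟨a, trivial, rfl⟩
    · intro k
      refine ⟨⟨_, MP.of_mem (tr_mem h1 k)⟩, trivial, ZFSet.ext fun u => mem_img.trans
        ⟨fun ⟨_, k, e⟩ => e ▸ k, fun l => ?_⟩⟩
      obtain ⟨a, -, rfl⟩ := mem_img.1 ((h2 _ (tr_mem h1 k)).1 k l)
      exact ⟨a, l, rfl⟩

theorem MP.mem {f : α → β} {g : α → PS M β} (h : MF M f) (k : MF M g) :
    MP M fun a => f a ∈ (g a).1 :=
  ((mp_memc (α := β) (β := PS M β)).comp (h.pair k)).congr fun _ => mem_img' Cd.inj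

theorem MF.ps {g : α → PS M β} (h : MP M fun z : α × β => z.2 ∈ (g z.1).1) : MF M g :=
  mf_iff.2 ((MP.all (p := fun (z : α × PS M β) b => b ∈ (g z.1).1 ↔ b ∈ z.2.1)
    ((h.comp (mf_fst.fst.pair mf_snd)).iff (MP.mem mf_snd mf_fst.snd))).congr fun _ =>
      ⟨fun k => Subtype.ext (Set.ext k), fun k _ => k ▸ Iff.rfl⟩)

/-- Maximal cliques exist in `M`. -/
def Clq (M : Set V) : Prop := ∀ X ∈ M, ∀ ρ ∈ M, ∃ Y ∈ M, (∀ x ∈ Y, x ∈ X) ∧
  (∀ x ∈ Y, ∀ y ∈ Y, ZFSet.pair x y ∈ ρ) ∧ ∀ x ∈ X, ZFSet.pair x x ∈ ρ →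
    (∀ y ∈ Y, ZFSet.pair x y ∈ ρ ∧ ZFSet.pair y x ∈ ρ) → x ∈ Y

theorem Clq.typed (hC : Clq M) {r : α → α → Prop} (h : MP M fun z : α × α => r z.1 z.2) :
    ∃ p : α → Prop, MP M p ∧ (∀ a b, p a → p b → r a b) ∧
      ∀ a, r a a → (∀ b, p b → r a b ∧ r b a) → p a := by
  obtain ⟨Y, h1, h2, h3, h4⟩ := hC _ (Cd.mem (M := M) (α := α)) _ h.out
  refine ⟨_, MP.of_mem h1, fun a b k l => (mem_mp (a := (a, b))).1 (h3 _ k _ l), fun a k l =>
    h4 _ (mem_img.2 ⟨a, trivial, rfl⟩) ((mem_mp (a := (a, a))).2 k) fun y hy => ?_⟩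
  obtain ⟨b, -, rfl⟩ := mem_img.1 (h2 y hy)
  exact ⟨(mem_mp (a := (a, b))).2 (l b hy).1, (mem_mp (a := (b, a))).2 (l b hy).2⟩

/-- Zorn's lemma in `M`. -/
theorem Clq.zorn (hC : Clq M) {Φ : Set α → Prop} (h : MP M fun s : PS M α => Φ s.1)
    (hc : ∀ Y : Set (Set α), IsChain (· ⊆ ·) Y → Y.Nonempty → (∀ s ∈ Y, Φ s) → Φ (⋃₀ Y))
    {s0 : Set α} (h0 : MP M fun a => a ∈ s0) (k0 : Φ s0) :
    ∃ s : Set α, (MP M fun a => a ∈ s) ∧ Φ s ∧
      ∀ t : Set α, (MP M fun a => a ∈ t) → Φ t → s ⊆ t → t ⊆ s := by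
  have sub : ∀ {f g : PS M α × PS M α → PS M α}, MF M f → MF M g →
      MP M fun z => (f z).1 ⊆ (g z).1 := fun {f g} a b =>
    MP.all (p := fun z x => x ∈ (f z).1 → x ∈ (g z).1)
      ((MP.mem mf_snd (a.comp mf_fst)).imp (MP.mem mf_snd (b.comp mf_fst)))
  obtain ⟨p, h1, h2, h3⟩ := hC.typed (r := fun s t : PS M α => Φ s.1 ∧ Φ t.1 ∧
    (s.1 ⊆ t.1 ∨ t.1 ⊆ s.1)) ((h.comp mf_fst).and ((h.comp mf_snd).and
      ((sub mf_fst mf_snd).or (sub mf_snd mf_fst))))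
  have h4 : Φ (⋃₀ (Subtype.val '' {s | p s})) := by
    refine hc _ ?_ ?_ ?_
    · rintro _ ⟨s, a, rfl⟩ _ ⟨t, b, rfl⟩ -
      exact (h2 s t a b).2.2
    · by_contra k
      exact k ⟨_, ⟨s0, h0⟩, h3 _ ⟨k0, k0, Or.inl subset_rfl⟩ fun b l => (k ⟨_, b, l, rfl⟩).elim, rfl⟩
    · rintro _ ⟨s, a, rfl⟩
      exact (h2 s s a a).1
  refine ⟨_, (MP.ex (p := fun a (s : PS M α) => p s ∧ a ∈ s.1)
    ((h1.comp mf_snd).and (MP.mem mf_fst mf_snd))).congr fun a =>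
      ⟨fun ⟨s, k1, k2⟩ => mem_sUnion.2 ⟨s.1, mem_image_of_mem _ k1, k2⟩, by
        rintro ⟨_, ⟨s, k1, rfl⟩, k2⟩
        exact ⟨s, k1, k2⟩⟩,
    h4, fun t k1 k2 k3 => subset_sUnion_of_mem ⟨⟨t, k1⟩, h3 _ ⟨k2, k2, Or.inl subset_rfl⟩
      fun b l => ?_, rfl⟩⟩
  have : b.1 ⊆ t := fun x hx => k3 ⟨_, ⟨b, l, rfl⟩, hx⟩
  exact ⟨⟨k2, (h2 b b l l).1, Or.inr this⟩, (h2 b b l l).1, k2, Or.inl this⟩

end Pool.Agent.Lib.MP_1e63be_al.Z41
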