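import Pool.Agent.Lib.MP_1e63be_al.Z41.InM

/-!
Injective hulls of simple modules inside a model of ZFC, and the two spectra.
-/

namespace Pool.Agent.Lib.MP_1e63be_al.Z41

open Pool.Agent.Lib.MP_fecf72_lc Pool.Agent.Lib.MP_d63cb0_gt.H15 Set Function

variable {M : Set V} [hM : Fact (IsZFC M)]

section
variable {α β γ : Type} [Cd M α] [Cd M β] [Cd M γ]

/-- The function space in `M`. -/
def FS (M : Set V) (α β : Type) [Cd M α] [Cd M β] : Type := {f : α → β // MF M f}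

/-- The graph of a function of `M`. -/
def gph (f : FS M α β) : PS M (α × β) := ⟨{z | f.1 z.1 = z.2}, mf_iff.1 f.2⟩

theorem gph_inj : Injective (gph : FS M α β → _) := fun f g h => Subtype.ext (funext fun a => by
  have : (a, f.1 a) ∈ (gph f).1 := rfl
  rw [h] at this
  exact this.symm)

noncomputable instance : Cd M (FS M α β) :=
  Cd.ofInj gph gph_inj ((MP.all (p := fun (s : PS M (α × β)) a => ∃ b, ∀ b', (a, b') ∈ s.1 ↔ b = b')
    (MP.ex (MP.all ((MP.mem (mf_fst.fst.snd.pair mf_snd) mf_fst.fst.fst).iff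
      (MP.eq mf_fst.snd mf_snd))))).congr fun s => ⟨fun h => by
        choose f hf using h
        exact ⟨⟨f, mf_iff.2 (s.2.congr fun z => hf z.1 z.2)⟩,
          Subtype.ext (Set.ext fun z => (hf z.1 z.2).symm)⟩, by
        rintro ⟨f, rfl⟩ a
        exact ⟨f.1 a, fun _ => Iff.rfl⟩⟩)

theorem mf_gph : MF M (gph : FS M α β → _) := MF.of_cd fun _ => rfl

theorem MF.ev {f : γ → FS M α β} {g : γ → α} (hf : MF M f) (hg : MF M g) :
    MF M fun x => (f x).1 (g x) :=
  mf_iff.2 (MP.mem ((hg.comp mf_fst).pair mf_snd) (mf_gph.comp (hf.comp mf_fst)) :)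

theorem MF.fs {f : γ → FS M α β} (h : MF M fun z : γ × α => (f z.1).1 z.2) : MF M f :=
  mf_gph.lift gph_inj (MF.ps (MP.eq (h.comp (mf_fst.pair mf_snd.fst)) mf_snd.snd :))

end

variable {S : Type} [Ring S] [Cd M S]

theorem MM.cen (h : MM M S S) : MP M fun x => x ∈ Subring.center S :=
  (MP.all (p := fun x y : S => y • x = x • y)
    (MP.eq (h.sm mf_snd mf_fst) (h.sm mf_fst mf_snd))).congr fun _ => Subring.mem_center_iff.symm

theorem MM.compl (h : MM M S S) (hC : Clq M) (hp : ∀ x : S, x ≠ 0 → ∃ y z, y * x * z = 1)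
    {E : Type} [AddCommGroup E] [Module S E] [Cd M E] (hE : MM M S E)
    {A B : Submodule (Subring.center S) E} (hA : MP M fun x => x ∈ A) (hB : MP M fun x => x ∈ B)
    (d : Disjoint A B) :
    ∃ C : Submodule (Subring.center S) E, (MP M fun x => x ∈ C) ∧ A ≤ C ∧ IsCompl C B := by
  let _ : Cd M (Subring.center S) :=
    Cd.ofInj Subtype.val Subtype.val_injective (h.cen.congr fun _ => by simp)
  have v : MF M (Subtype.val : Subring.center S → S) := MF.of_cd fun _ => rfl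
  obtain ⟨C, h1, h2, h3, h4⟩ := MM.mx (S := Subring.center S)
    ⟨hE.add, hE.sm (v.comp mf_fst) mf_snd⟩ hC hA hB d
  refine ⟨C, h1, h2, h3, Submodule.codisjoint_iff_exists_add_eq.2 fun e => ?_⟩
  by_cases he : e ∈ C
  · exact ⟨e, 0, he, B.zero_mem, add_zero e⟩
  obtain ⟨r, c, a1, a2, a3⟩ := h4 e he
  obtain ⟨y, z, a4⟩ := hp r.1 fun k => a3 (Submodule.disjoint_def.1 h3 _
    (by rwa [show r = 0 from Subtype.ext k, zero_smul, zero_add]) a2)
  have a5 := Subring.mem_center_iff.1 r.2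
  have a6 : y * z * r.1 = 1 := by rw [mul_assoc, a5, ← mul_assoc, a4]
  have a7 : y * z ∈ Subring.center S := Subring.mem_center_iff.2 fun g => by
    calc g * (y * z) = y * z * r.1 * g * (y * z) := by rw [a6, one_mul]
      _ = y * z * g * (y * z * r.1) := by rw [mul_assoc _ r.1, ← a5, a5 (y * z)]; noncomm_ring
      _ = y * z * g := by rw [a6, mul_one]
  refine ⟨- ((⟨_, a7⟩ : Subring.center S) • c), _, C.neg_mem (C.smul_mem _ a1),
    B.smul_mem ⟨_, a7⟩ a2, ?_⟩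
  rw [smul_add, smul_smul, show (⟨_, a7⟩ : Subring.center S) * r = 1 from Subtype.ext a6]
  simp

/-- Functionals with values in the centre. -/
def dl (h : MM M S S) : AddSubgroup (S → S) where
  carrier := {φ | MF M φ ∧ (∀ x y, φ (x + y) = φ x + φ y) ∧
    (∀ z x, z ∈ Subring.center S → φ (z * x) = z * φ x) ∧ ∀ x, φ x ∈ Subring.center S}
  zero_mem' := ⟨mf_const 0, by simp, by simp, fun _ => zero_mem _⟩
  add_mem' a b := ⟨h.ad a.1 b.1, fun x y => by simp only [Pi.add_apply, a.2.1, b.2.1]; abel,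
    fun z x k => by simp only [Pi.add_apply, a.2.2.1 z x k, b.2.2.1 z x k, mul_add],
    fun x => add_mem (a.2.2.2 x) (b.2.2.2 x)⟩
  neg_mem' {φ} a := ⟨(by simpa using h.sb (mf_const 0) a.1 : MF M fun x => - φ x),
    fun x y => by simp only [Pi.neg_apply, a.2.1]; abel,
    fun z x k => by simp only [Pi.neg_apply, a.2.2.1 z x k, mul_neg], fun x => neg_mem (a.2.2.2 x)⟩

/-- The dual module. -/
def Dl (h : MM M S S) : Type := dl h

variable {h : MM M S S}

instance : AddCommGroup (Dl h) := inferInstanceAs (AddCommGroup (dl h))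

instance : Module S (Dl h) where
  smul r φ := ⟨fun s => φ.1 (s * r), φ.2.1.comp (h.sm mf_id (mf_const r)),
    fun x y => by simp only [add_mul, φ.2.2.1], fun z x k => by
      simp only [mul_assoc, φ.2.2.2.1 z _ k], fun _ => φ.2.2.2.2 _⟩
  one_smul φ := Subtype.ext (funext fun s => congrArg φ.1 (mul_one s))
  mul_smul a b φ := Subtype.ext (funext fun s => congrArg φ.1 (mul_assoc s a b).symm)
  smul_zero _ := rfl
  smul_add _ _ _ := rfl
  add_smul a b φ := Subtype.ext (funext fun s => (congrArg φ.1 (mul_add s a b)).trans (φ.2.2.1 _ _))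
  zero_smul φ := Subtype.ext (funext fun s => (congrArg φ.1 (mul_zero s)).trans
    (show φ.1 0 = 0 by simpa using φ.2.2.2.1 0 0 (zero_mem _)))

/-- The underlying function. -/
def Dl.fs (φ : Dl h) : FS M S S := ⟨φ.1, φ.2.1⟩

theorem Dl.fs_inj : Injective (Dl.fs : Dl h → _) := fun _ _ k =>
  Subtype.ext (congrArg Subtype.val k :)

theorem dl_mp (h : MM M S S) : MP M fun φ : FS M S S => (∀ x y, φ.1 (x + y) = φ.1 x + φ.1 y) ∧
    (∀ z x, z ∈ Subring.center S → φ.1 (z • x) = z • φ.1 x) ∧ ∀ x, φ.1 x ∈ Subring.center S := by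
  have a1 : MP M fun z : (FS M S S × S) × S => z.1.1.1 (z.1.2 + z.2) = z.1.1.1 z.1.2 + z.1.1.1 z.2 :=
    MP.eq (mf_fst.fst.ev (h.ad mf_fst.snd mf_snd))
      (h.ad (mf_fst.fst.ev mf_fst.snd) (mf_fst.fst.ev mf_snd))
  have a2 : MP M fun z : (FS M S S × S) × S => z.1.1.1 (z.1.2 • z.2) = z.1.2 • z.1.1.1 z.2 :=
    MP.eq (mf_fst.fst.ev (h.sm mf_fst.snd mf_snd)) (h.sm mf_fst.snd (mf_fst.fst.ev mf_snd))
  have a3 : MF M fun z : FS M S S × S => z.1.1 z.2 := mf_fst.ev mf_snd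
  exact (MP.all (MP.all a1)).and ((MP.all (MP.all ((h.cen.comp mf_fst.snd).imp a2))).and
    (MP.all (h.cen.comp a3)))

noncomputable instance : Cd M (Dl h) :=
  Cd.ofInj Dl.fs Dl.fs_inj ((dl_mp h).congr fun φ =>
    ⟨fun k => ⟨⟨φ.1, φ.2, k⟩, rfl⟩, by rintro ⟨ψ, rfl⟩; exact ψ.2.2⟩)

theorem mf_fs : MF M (Dl.fs : Dl h → _) := MF.of_cd fun _ => rfl

theorem mm_dl : MM M S (Dl h) :=
  ⟨mf_fs.lift Dl.fs_inj (MF.fs (h.ad ((mf_fs.comp mf_fst.fst).ev mf_snd)
      ((mf_fs.comp mf_fst.snd).ev mf_snd) :)),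
    mf_fs.lift Dl.fs_inj (MF.fs ((mf_fs.comp mf_fst.snd).ev (h.sm mf_snd mf_fst.fst) :))⟩

theorem dl_mk {B : Type} [AddCommGroup B] [Module S B] [Cd M B] (hB : MM M S B)
    (k : B →ₗ[Subring.center S] S) (k1 : MF M k) (k2 : ∀ b, k b ∈ Subring.center S) :
    ∃ g : B →ₗ[S] Dl h, MF M g ∧ ∀ b s, (g b).1 s = k (s • b) :=
  ⟨⟨⟨fun b => ⟨fun s => k (s • b), k1.comp (hB.sm mf_id (mf_const b)),
      fun x y => by simp only [add_smul, map_add], fun z x l => by
        exact (congrArg k (mul_smul z x b)).trans (k.map_smul ⟨z, l⟩ _), fun _ => k2 _⟩,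
      fun a b => Subtype.ext (funext fun s => (congrArg k (smul_add s a b)).trans (k.map_add _ _))⟩,
      fun r b => Subtype.ext (funext fun s => congrArg k (mul_smul s r b).symm)⟩,
    mf_fs.lift Dl.fs_inj (MF.fs (k1.comp (hB.sm mf_snd mf_fst) :)), fun _ _ => rfl⟩

theorem inj_dl (hC : Clq M) (hp : ∀ x : S, x ≠ 0 → ∃ y z, y * x * z = 1) : Inj M S (Dl h) := by
  intro A B _ _ _ _ _ _ hA hB f g hf hg k
  let f' := f.restrictScalars (Subring.center S)
  have h1 : MP M fun x => x ∈ LinearMap.range f' := MP.ex (MP.eq (hf.comp mf_snd) mf_fst)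
  obtain ⟨C, a1, -, a2⟩ := h.compl hC hp hB mp_bot h1 disjoint_bot_left
  let g' : A →ₗ[Subring.center S] S := ⟨⟨fun a => (g a).1 1, fun a b => by rw [map_add]; rfl⟩,
    fun z a => by
      have := (g a).2.2.2.1 z.1 1 z.2
      rw [mul_one] at this
      exact (congrArg (fun φ : Dl h => φ.1 1) (g.map_smul z.1 a)).trans
        ((congrArg (g a).1 (one_mul _)).trans this)⟩
  let π := (LinearEquiv.ofInjective f' k).symm.toLinearMap ∘ₗ
    (LinearMap.range f').projectionOnto C a2.symm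
  have a3 : ∀ b a, b - f a ∈ C ↔ π b = a := fun b a => by
    rw [← Submodule.projectionOnto_apply_eq_zero_iff a2.symm, map_sub, sub_eq_zero]
    exact (Eq.congr_right (Submodule.projectionOnto_apply_left a2.symm ⟨f a, a, rfl⟩)).trans
      ((LinearEquiv.ofInjective f' k).symm_apply_eq (y := a)).symm
  have a4 : MF M π := mf_iff.2 ((a1.comp (hB.sb mf_fst (hf.comp mf_snd))).congr fun z => a3 _ _)
  obtain ⟨u, b1, b2⟩ := dl_mk (h := h) hB (g' ∘ₗ π)
    (((mf_fs.comp hg).ev (mf_const 1)).comp a4 :) fun b => (g _).2.2.2.2 1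
  refine ⟨u, b1, fun a => Subtype.ext (funext fun s => (b2 _ s).trans ?_)⟩
  rw [← map_smul, LinearMap.comp_apply, (a3 _ (s • a)).1 (by simp)]
  exact (congrArg (fun φ : Dl h => φ.1 1) (g.map_smul s a)).trans (congrArg (g a).1 (one_mul s))

theorem hull (h : MM M S S) (hC : Clq M) (hp : ∀ x : S, x ≠ 0 → ∃ y z, y * x * z = 1)
    {I : Ideal S} (hI : I.IsMaximal) (k : MP M fun x => x ∈ I) :
    ∃ N : ModIn M S (cd M), N.Indec ∧ N.PureInj ∧ ∃ y : N.T, Soc I y := by
  have h1 : ∀ x : S, x ∈ Submodule.span (Subring.center S) {(1 : S)} ↔ x ∈ Subring.center S :=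
    fun x => Submodule.mem_span_singleton.trans
      ⟨fun ⟨z, e⟩ => e ▸ mul_mem z.2 (one_mem _), fun l => ⟨⟨x, l⟩, mul_one x⟩⟩
  have h2 := h.cen.congr fun x => (h1 x).symm
  obtain ⟨C, a1, a2, a3⟩ := h.compl hC hp h (A := I.restrictScalars _) k h2
    (Submodule.disjoint_def.2 fun x b1 b2 => by_contra fun l => by
      obtain ⟨y, z, e⟩ := hp x l
      refine hI.ne_top ((Ideal.eq_top_iff_one _).2 ?_)
      rw [← e, mul_assoc, ← Subring.mem_center_iff.1 ((h1 x).1 b2), ← mul_assoc]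
      exact I.mul_mem_left _ b1)
  let p := (Submodule.span (Subring.center S) {(1 : S)}).projectionOnto C a3.symm
  obtain ⟨u, -, b2⟩ := dl_mk (h := h) h (Submodule.subtype _ ∘ₗ p) (mf_iff.2
    (((a1.comp (h.sb mf_fst mf_snd)).and (h2.comp mf_snd)).congr fun z => ⟨fun l => by
      have := (Submodule.projectionOnto_apply_eq_zero_iff a3.symm).2 l.1
      rw [map_sub, sub_eq_zero] at this
      exact (congrArg Subtype.val this).trans
        (congrArg Subtype.val (Submodule.projectionOnto_apply_left a3.symm ⟨z.2, l.2⟩)), fun l => by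
      rw [← l]
      exact ⟨(Submodule.projectionOnto_apply_eq_zero_iff a3.symm).1 (by
        rw [map_sub, sub_eq_zero]
        exact (Submodule.projectionOnto_apply_left a3.symm (p z.1)).symm), (p z.1).2⟩⟩))
    fun b => (h1 _).1 (p b).2
  have nt : (1 : S) ≠ 0 := fun e => hI.ne_top ((Ideal.eq_top_iff_one _).2 (e ▸ I.zero_mem))
  refine hull_of_inj hC hI mm_dl (inj_dl (h := h) hC hp) (x := u 1) (fun e => nt ?_) fun i hi =>
    Subtype.ext (funext fun s => (b2 1 (s * i)).trans ?_)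
  · have := b2 1 1
    rw [e, one_smul] at this
    exact (congrArg Subtype.val (Submodule.projectionOnto_apply_left a3.symm
      ⟨1, Submodule.mem_span_singleton_self _⟩)).symm.trans this.symm
  · exact congrArg Subtype.val ((Submodule.projectionOnto_apply_eq_zero_iff a3.symm).2
      (a2 (show _ ∈ I from by simpa using I.mul_mem_left s hi)))

theorem zg_one (h : MM M S S) (hC : Clq M) (hS : Reg S)
    (hp : ∀ x : S, x ≠ 0 → ∃ y z, y * x * z = 1) {I : Ideal S} (hI : I.IsMaximal)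
    (k : MP M fun x => x ∈ I)
    (h2 : ∀ J : Ideal S, (MP M fun x => x ∈ J) → J.IsMaximal → ∃ v ∉ J, ∀ i ∈ I, i * v ∈ J)
    (h3 : ∀ J : Ideal S, (MP M fun x => x ∈ J) → J ≠ ⊤ → Unif J → ¬ SocFree J) :
    HasCBRank (ZgIn M S (cd M)) 0 ∧ Subsingleton (ZgIn M S (cd M)) := by
  have key : ∀ N : ModIn M S (cd M), N.Indec → N.PureInj → ∃ x : N.T, Soc I x := by
    intro N a1 a2
    have := a1.1
    obtain ⟨x, hx⟩ := exists_ne (0 : N.T)
    have an : ∀ y : N.T, MP M fun r => r ∈ LinearMap.ker (LinearMap.toSpanSingleton S _ y) :=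
      fun y => MP.eq (N.mm.sm mf_id (mf_const y)) (mf_const 0)
    have nt : ∀ y : N.T, y ≠ 0 → (1 : S) ∉ LinearMap.ker (LinearMap.toSpanSingleton S _ y) :=
      fun y hy e => hy ((one_smul S y).symm.trans e)
    have b1 := h3 _ (an x) (nt x hx ∘ (Ideal.eq_top_iff_one _).1) fun a ha b hb => by
      obtain ⟨r, s, e, l⟩ := N.unif hS hC a1 a2 (x := a • x) (y := b • x) ha hb
      exact ⟨r, s, show (r * a - s * b) • x = 0 by rw [sub_smul, mul_smul, mul_smul, e, sub_self],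
        fun e' => l ((mul_smul r a x).symm.trans e')⟩
    simp only [SocFree, not_forall, not_exists, not_and, not_not] at b1
    obtain ⟨a, b2, b3⟩ := b1
    obtain ⟨v, c1, c2⟩ := h2 _ (an (a • x)) (Ideal.isMaximal_iff.2 ⟨nt _ b2, fun J r l1 l2 l3 => by
      obtain ⟨s, hs⟩ := b3 r fun e => l2 ((mul_smul r a x).symm.trans e)
      have : 1 - s * r ∈ J := l1 (show (1 - s * r) • a • x = 0 by
        rw [smul_smul, sub_mul, one_mul, mul_assoc]; exact hs)
      simpa using J.add_mem this (J.mul_mem_left s l3)⟩)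
    have c3 : ∀ i ∈ I, i • v • a • x = 0 := fun i hi => (mul_smul i v _).symm.trans (c2 i hi)
    refine ⟨v • a • x, c1, c3, fun w hw => ?_⟩
    obtain ⟨r, s, e, l⟩ := N.unif hS hC a1 a2 hw c1
    obtain ⟨t, ht⟩ := max_gen hI c3 (e ▸ l : s • v • a • x ≠ 0)
    exact ⟨t * r, by rw [mul_smul, e]; exact ht⟩
  obtain ⟨N, a1, a2, -⟩ := hull h hC hp hI k
  have : Nonempty (ZgIn M S (cd M)) := ⟨Quot.mk _ ⟨N, a1, a2⟩⟩
  have : Subsingleton (ZgIn M S (cd M)) := ⟨by
    rintro ⟨A⟩ ⟨B⟩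
    obtain ⟨x, hx⟩ := key _ A.2.1 A.2.2
    obtain ⟨y, hy⟩ := key _ B.2.1 B.2.2
    obtain ⟨e, he⟩ := iso_of_soc hS h hI A.2.2 B.2.2 hx hy
    exact Quot.sound ⟨e, he.out⟩⟩
  exact ⟨cb_zero, this⟩

theorem zg_two (h : MM M S S) (hC : Clq M) (hS : Reg S)
    (hp : ∀ x : S, x ≠ 0 → ∃ y z, y * x * z = 1) {I J : Ideal S} (hI : I.IsMaximal)
    (hJ : J.IsMaximal) (k : MP M fun x => x ∈ I) (l : MP M fun x => x ∈ J)
    (h2 : ∀ u, (∀ i ∈ I, i * u ∈ J) → u ∈ J) : Nontrivial (ZgIn M S (cd M)) ∧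
      HasCBRank (ZgIn M S (cd M)) ⊤ ∧
        ∀ U : Set (ZgIn M S (cd M)), IsOpen U → U = ∅ ∨ U = univ := by
  obtain ⟨A, a1, a2, x, a3⟩ := hull h hC hp hI k
  obtain ⟨B, b1, b2, y, b3⟩ := hull h hC hp hJ l
  have : Nontrivial (ZgIn M S (cd M)) := ⟨Quot.mk _ ⟨A, a1, a2⟩, Quot.mk _ ⟨B, b1, b2⟩, fun e => by
    have : ∀ N N', Relation.EqvGen (IsoIn (M := M) (S := S) (c := cd M)) N N' →
        Nonempty (N.1.T ≃ₗ[S] N'.1.T) := by
      intro N N' r
      induction r with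
      | rel _ _ r => exact ⟨r.choose⟩
      | refl _ => exact ⟨LinearEquiv.refl _ _⟩
      | symm _ _ _ r => exact r.map LinearEquiv.symm
      | trans _ _ _ _ _ r r' => exact ⟨r.some.trans r'.some⟩
    obtain ⟨e⟩ := this _ _ (Quot.eqvGen_exact e)
    obtain ⟨u, hu⟩ := a3.ess (e.symm y) (by simpa using b3.ne)
    have c1 : e x = u • y := by rw [← hu, map_smul, e.apply_symm_apply]
    refine a3.ne (e.map_eq_zero_iff.1 (c1.trans (b3.ann u (h2 u fun i hi => by_contra fun n => ?_))))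
    obtain ⟨t, c, d1, d2⟩ := hJ.exists_inv n
    exact b3.ne (by rw [← one_smul S y, ← d2, add_smul, b3.ann c d1, mul_smul, mul_smul, ← c1,
      ← map_smul, a3.ann i hi, map_zero, smul_zero, add_zero])⟩
  refine ⟨this, cb_top ?_⟩
  rintro _ ⟨φ, ψ, rfl⟩
  obtain ⟨p, hp⟩ := hS.basic hp φ ψ
  by_cases c : p
  · exact Or.inl (eq_empty_of_forall_notMem fun _ ⟨N, _, e⟩ => e ((@hp _ _ _ N.2.1.1).2 c))
  · exact Or.inr (eq_univ_of_forall (Quot.ind fun N => ⟨N, rfl, c ∘ (@hp _ _ _ N.2.1.1).1⟩))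

end Pool.Agent.Lib.MP_1e63be_al.Z41
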