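import Pool.Agent.Lib.MP_1e63be_al.Z41.Blue
import Pool.Agent.Lib.MP_1e63be_al.Defs

/-!
Linear systems over regular rings.
-/

namespace Pool.Agent.Lib.MP_1e63be_al.Z41

open Function Finset

variable {S : Type} [Ring S]

theorem Reg.col (h : Reg S) {ι : Type} [Fintype ι] (a : ι → S) :
    ∃ a' : ι → S, ∀ j, a j * ∑ k, a' k * a k = a j := by
  classical
  have : ∀ s : Finset ι, ∃ e ∈ Submodule.span S (Set.range a), ∀ j ∈ s, a j * e = a j := by
    intro s
    induction s using Finset.induction_on with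
    | empty => exact ⟨0, zero_mem _, by simp⟩
    | insert i s _ ih =>
      obtain ⟨e, h1, h2⟩ := ih
      obtain ⟨e', p, q, h3, h4, h5⟩ := h.join (a i) e
      refine ⟨e', h3 ▸ add_mem (Submodule.smul_mem _ p (Submodule.subset_span ⟨i, rfl⟩))
        (Submodule.smul_mem _ q h1), fun j hj => ?_⟩
      rcases mem_insert.1 hj with rfl | hj
      · exact h4
      · rw [← h2 j hj, mul_assoc, h5]
  obtain ⟨e, h1, h2⟩ := this univ
  obtain ⟨c, rfl⟩ := (Submodule.mem_span_range_iff_exists_fun S).1 h1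
  exact ⟨c, fun j => h2 j (mem_univ j)⟩

theorem Reg.elim (h : Reg S) (m n : ℕ) : ∀ C : Fin m → Fin n → S, ∃ P : Fin m → Fin m → S,
    ∀ (N : Type) [AddCommGroup N] [Module S N] (b : Fin m → N),
      (∃ y : Fin n → N, ∀ j, ∑ i, C j i • y i = b j) ↔ ∀ j, ∑ k, P j k • b k = 0 := by
  induction n with
  | zero =>
    refine fun C => ⟨fun j k => if j = k then 1 else 0, fun N _ _ b => ?_⟩
    simp [ite_smul, eq_comm]
  | succ n ih =>
    intro C
    obtain ⟨a', ha⟩ := h.col fun j => C j 0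
    obtain ⟨P, hP⟩ := ih fun j i => C j i.succ - C j 0 * ∑ k, a' k * C k i.succ
    refine ⟨fun j l => P j l - ∑ k, P j k * C k 0 * a' l, fun N _ _ b => ?_⟩
    have e1 : ∀ (y : Fin n → N) j, ∑ i, (C j i.succ - C j 0 * ∑ k, a' k * C k i.succ) • y i =
        ∑ i, C j i.succ • y i - C j 0 • ∑ k, a' k • ∑ i, C k i.succ • y i := by
      intro y j
      simp only [sub_smul, sum_sub_distrib, mul_smul, sum_smul, smul_sum]
      rw [sum_comm]
    have e2 : ∀ j, ∑ l, (P j l - ∑ k, P j k * C k 0 * a' l) • b l =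
        ∑ k, P j k • (b k - C k 0 • ∑ l, a' l • b l) := by
      intro j
      simp only [sub_smul, smul_sub, sum_sub_distrib, mul_smul, sum_smul, smul_sum]
      rw [sum_comm]
    simp only [e2]
    rw [← hP]
    simp only [e1, Fin.sum_univ_succ]
    constructor
    · rintro ⟨y, hy⟩
      refine ⟨fun i => y i.succ, fun j => ?_⟩
      simp only [← hy, smul_add, sum_add_distrib, smul_smul (a' _) (C _ 0), ← sum_smul,
        smul_smul (C j 0) (∑ _, _), ha]
      abel
    · rintro ⟨y, hy⟩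
      refine ⟨Fin.cons (∑ l, a' l • b l - ∑ k, a' k • ∑ i, C k i.succ • y i) y, fun j => ?_⟩
      simp only [Fin.cons_zero, Fin.cons_succ, smul_sub]
      rw [sub_eq_iff_eq_add.1 (hy j)]
      abel

theorem Reg.pure (h : Reg S) {A B : Type} [AddCommGroup A] [Module S A] [AddCommGroup B]
    [Module S B] {f : A →ₗ[S] B} (hf : Injective f) : IsPureEmb f := by
  refine ⟨hf, fun n m C c k => ?_⟩
  obtain ⟨P, hP⟩ := h.elim m n C
  exact (hP A c).2 fun j => hf (by simpa using (hP B _).1 k j)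

theorem Reg.eval (h : Reg S) (φ : PPCond S) : ∃ e : S, ∀ (N : Type) [AddCommGroup N] [Module S N],
    φ.eval N = {x | e • x = 0} := by
  obtain ⟨P, hP⟩ := h.elim φ.m φ.n fun j i => φ.H i.succ j
  obtain ⟨a', ha⟩ := h.col fun j => ∑ k, P j k * φ.H 0 k
  refine ⟨∑ j, a' j * ∑ k, P j k * φ.H 0 k, fun N _ _ => Set.ext fun x => ?_⟩
  have e1 : x ∈ φ.eval N ↔ ∀ j, (∑ k, P j k * φ.H 0 k) • x = 0 := by
    have := hP N fun j => - (φ.H 0 j • x)
    simp only [smul_neg, sum_neg_distrib, neg_eq_zero, smul_smul, ← sum_smul] at this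
    rw [← this]
    exact exists_congr fun w => forall_congr' fun j => add_eq_zero_iff_eq_neg'
  rw [e1]
  refine ⟨fun k => ?_, fun k j => ?_⟩
  · simp only [Set.mem_ofPred_eq, sum_smul (s := univ) (f := fun j => a' j * _), mul_smul, k]
    simp
  · rw [← ha j, mul_smul, show _ • x = 0 from k, smul_zero]

theorem Reg.basic (h : Reg S) (hp : ∀ x : S, x ≠ 0 → ∃ y z, y * x * z = 1) (φ ψ : PPCond S) :
    ∃ p : Prop, ∀ (N : Type) [AddCommGroup N] [Module S N] [Nontrivial N],
      φ.eval N ⊆ ψ.eval N ↔ p := by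
  obtain ⟨e, he⟩ := h.eval φ
  obtain ⟨f, hf⟩ := h.eval ψ
  obtain ⟨e', he'⟩ := h e
  refine ⟨f * (1 - e' * e) = 0, fun N _ _ _ => ?_⟩
  rw [he, hf]
  refine ⟨fun k => by_contra fun l => ?_, fun k x hx => ?_⟩
  · obtain ⟨y, z, hy⟩ := hp _ l
    obtain ⟨w, hw⟩ := exists_ne (0 : N)
    have : (f * (1 - e' * e)) • z • w = 0 := by
      rw [mul_smul]
      refine k (show e • _ = 0 from ?_)
      rw [smul_smul, mul_sub, mul_one, ← mul_assoc, he', sub_self, zero_smul]
    exact hw (by rw [← one_smul S w, ← hy, mul_smul, mul_smul, this, smul_zero])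
  · have : (f * (1 - e' * e)) • x = 0 := by rw [k, zero_smul]
    rwa [mul_smul, sub_smul, one_smul, mul_smul, show e • x = 0 from hx, smul_zero,
      sub_zero] at this

theorem cb_zero {T : Type 1} [TopologicalSpace T] [Subsingleton T] [Nonempty T] :
    HasCBRank T 0 := by
  refine Or.inr ⟨0, rfl, ?_, by simp⟩
  rw [CantorBendixson.iteratedDerivedSet_succ, CantorBendixson.iteratedDerivedSet_zero]
  refine Set.eq_empty_of_forall_notMem fun x hx => ?_
  obtain ⟨y, -, hy⟩ := (accPt_iff_nhds.1 hx.1) Set.univ Filter.univ_mem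
  exact hy (Subsingleton.elim _ _)

theorem cb_top {T : Type 1} {B : Set (Set T)} (hB : ∀ U ∈ B, U = ∅ ∨ U = Set.univ)
    [Nontrivial T] : @HasCBRank T (TopologicalSpace.generateFrom B) ⊤ ∧
      ∀ U : Set T, @IsOpen T (TopologicalSpace.generateFrom B) U → U = ∅ ∨ U = Set.univ := by
  let _ := TopologicalSpace.generateFrom B
  have h1 : ∀ U : Set T, IsOpen U → U = ∅ ∨ U = Set.univ := by
    intro U hU
    induction hU with
    | basic U h => exact hB U h
    | univ => exact Or.inr rfl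
    | inter U W _ _ h k => rcases h with rfl | rfl <;> simp [k]
    | sUnion F _ h =>
      by_cases k : Set.univ ∈ F
      · exact Or.inr (Set.univ_subset_iff.1 (Set.subset_sUnion_of_mem k))
      · exact Or.inl (Set.sUnion_eq_empty.2 fun t ht => (h t ht).resolve_right fun e => k (e ▸ ht))
  have h2 : Preperfect (Set.univ : Set T) := fun x _ => accPt_iff_nhds.2 fun U hU => by
    obtain ⟨W, h3, h4, h5⟩ := mem_nhds_iff.1 hU
    obtain ⟨y, hy⟩ := exists_ne x
    rcases h1 W h4 with rfl | rfl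
    · exact h5.elim
    · exact ⟨y, ⟨h3 trivial, trivial⟩, hy⟩
  refine ⟨Or.inl ⟨rfl, ?_⟩, h1⟩
  simp [CantorBendixson.iteratedDerivedSet_constant_iff_preperfect.1 h2]

end Pool.Agent.Lib.MP_1e63be_al.Z41
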