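import Pool.Agent.Lib.MP_1e63be_al.Z41.Chain
import Pool.Agent.Lib.MP_d63cb0_gt.H15.Tm

/-!
Generic rings and reflection.
-/

namespace Z41F

open Z87 Pool.Agent.Lib.MP_fecf72_lc Pool.Agent.Lib.MP_d63cb0_gt.H15 Set Function Filter

section
variable {F A R T : Type} [Field F] [Ring A] [Ring R] [Ring T] [Algebra F A] [Algebra F R]
  [Algebra F T]

/-- Preimage of a right ideal. -/
def cmp (g : A →ₐ[F] R) (J : RI R) : RI A where
  carrier := {x | g x ∈ J}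
  add_mem' a b := by simpa using J.add_mem a b
  zero_mem' := by simp
  smul_mem' a x k := by
    change g (x * a.unop) ∈ J
    rw [map_mul]; exact RI.mul k _

theorem fin_iso (hA : Reg A) {f : A →ₐ[F] T} {g : T →ₐ[F] R} {I : RI A} {J : RI R} (h1 : 1 ∉ J)
    (h2 : MaxR (ext (g.comp f) I)) (h3 : IsoIJ f I (cmp (g.comp f) J)) :
    MaxR J ∧ ∃ X ∉ J, ∀ i ∈ ext (g.comp f) I, X * i ∈ J := by
  obtain ⟨X, Y, a1, -, a2, -⟩ := h3
  have b : ∀ z ∈ ext f (cmp (g.comp f) J), g z ∈ J := fun z k =>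
    (Submodule.span_le.2 (by rintro _ ⟨z, k, rfl⟩; exact k) : ext (g.comp f) _ ≤ J)
      (ext_map f (g.comp f) g (fun _ => rfl) k)
  have b1 : ∀ i ∈ ext (g.comp f) I, g X * i ∈ J := fun i k => by
    obtain ⟨c, k1, k2⟩ := (mem_ext hA _).1 k
    rw [← k2, ← mul_assoc]
    exact RI.mul (by simpa using b _ (a1 c k1)) _
  have b2 : g X * g Y - 1 ∈ J := by simpa using b _ a2
  refine ⟨⟨h1, fun x k => ?_⟩, g X, fun k => h1 (RI.of_sub' b2 (RI.mul k _)), b1⟩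
  obtain ⟨c, l⟩ := h2.2 (g Y * x) fun l =>
    k (RI.cast (J.sub_mem (b1 _ l) (RI.mul b2 x)) (by noncomm_ring))
  exact ⟨c * g Y, RI.cast (J.add_mem (J.sub_mem (RI.mul (b1 _ l) (g Y)) (RI.mul b2 (x * c * g Y)))
    b2) (by noncomm_ring)⟩

theorem fin_kept {f : A →ₐ[F] T} {g : T →ₐ[F] R} {J : RI R} (h1 : Unif J)
    (h2 : KeptS f (cmp (g.comp f) J)) (h3 : EssExt g (ext f (cmp (g.comp f) J)))
    (h4 : NU (ext g (ext f (cmp (g.comp f) J))))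
    (h5 : ∀ r, Idz (cmp (g.comp f) J) r → Idz J (g (f r)))
    (h6 : ∀ a b, (∀ s, b - a * s ∉ cmp (g.comp f) J) → ∀ s, g (f b) - g (f a) * s ∉ J) : False := by
  have b : ext g (ext f (cmp (g.comp f) J)) ≤ J := by
    rw [ext_comp g (f := f) (h := g.comp f) fun _ => rfl]
    exact Submodule.span_le.2 (by rintro _ ⟨z, k, rfl⟩; exact k)
  have b1 : ext g (ext f (cmp (g.comp f) J)) = J := le_antisymm b fun x k => by
    obtain l | ⟨r, c, a1, a2⟩ := h3 x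
    · exact l
    have a3 : g c ∈ J := RI.of_sub' (b a2) (RI.mul k r)
    obtain ⟨a, b', r1, r2, c1, c2, c3, y1, y2, y3, c4⟩ := h2 c a1
    refine (h6 a b' c3 (g y3) (RI.cast (J.add_mem (J.add_mem (b (ext_of g c4))
      (RI.mul (h5 _ c1 _ a3) (g y1))) (RI.mul (h5 _ c2 _ a3) (g y2))) ?_)).elim
    simp only [map_sub, map_add, map_mul]; abel
  rw [b1] at h4
  obtain ⟨c1, c2, a1, a2, a3⟩ := h4 1 h1.1
  obtain ⟨r, s, a4, a5⟩ := h1.2 _ a1 _ a2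
  exact a5 (a3 r s a4)

end

variable {F : Type} [Field F] {B : Bs F}

/-- A hull, a generic filter and the generic ring. -/
structure Wl (B : Bs F) (π : Nm (Cn B)) where
  N : Set Wd
  G : Set (Cn B)
  q : Cn B
  gg : GG N Le G
  le : ∀ p ∈ G, Le q p
  cov : ∀ x, In N (q.e x) ∧ ∃ p ∈ G, q.e x ∈ range p.e
  hπ : In N π

theorem club_wl (p : Cn B) (π : Nm (Cn B)) : ∀ᶠ N in Club, ∃ w : Wl B π, w.N = N ∧ p ∈ w.G := by
  filter_upwards [club_countable, clo0 p, clo0 π, clo0 (univ : Set (Cn B)),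
    sk2 fun (D : Set (Cn B)) (p q : Cn B) => q ∈ D ∧ Le q p,
    clo_sub (fun p : Cn B => range p.e) fun p => countable_range _] with N hc h1 hπ h2 h3 h4
  obtain ⟨e, he⟩ := ((countable_In (Set (Cn B)) hc).mono
    (inter_subset_left (t := {D | Dn Le D}))).exists_eq_range
      ⟨univ, h2, fun p hp => ⟨p, trivial, hp⟩⟩
  have e1 : ∀ n, In N (e n) ∧ Dn Le (e n) := fun n => (he ▸ mem_range_self n : e n ∈ _ ∩ _)
  have : Nonempty (Cn B) := ⟨p⟩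
  choose! f f1 f2 f3 using fun n (q : Cn B) (a : In N q) =>
    h3 (e n) q (e1 n).1 a ((e1 n).2 q (Le.rfl q))
  let s : ℕ → Cn B := fun n => Nat.rec p (fun n q => f n q) n
  have hs : ∀ n, In N (s n) := fun n => by
    induction n with
    | zero => exact h1
    | succ n ih => exact f1 n _ ih
  have hm : ∀ n m, n ≤ m → Le (s m) (s n) := by
    intro n m hnm
    induction hnm with
    | refl => exact Le.rfl _
    | step _ ih => exact fo.tr (f3 _ _ (hs _)) ih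
  obtain ⟨q, q1, q2⟩ := lim s hm
  refine ⟨⟨N, {q | ∃ n, Le (s n) q}, q, ⟨⟨fun a ⟨n, hn⟩ q hq => ⟨n, fo.tr hn hq⟩,
    fun a ⟨n, hn⟩ b ⟨m, hm'⟩ => ⟨s (max n m), ⟨_, Le.rfl _⟩, fo.tr (hm _ _ (le_max_left _ _)) hn,
      fo.tr (hm _ _ (le_max_right _ _)) hm'⟩⟩, fun D a b => ?_⟩, fun _ ⟨n, k⟩ => fo.tr (q1 n) k,
    fun x => (q2 x).elim fun n k => ⟨h4 _ (hs n) _ k, s n, ⟨n, Le.rfl _⟩, k⟩, hπ⟩, rfl,
    0, Le.rfl _⟩
  obtain ⟨n, rfl⟩ : D ∈ range e := he ▸ ⟨a, b⟩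
  exact ⟨s (n + 1), f2 n _ (hs n), ⟨n + 1, Le.rfl _⟩, hs (n + 1)⟩

variable {π : Nm (Cn B)}

/-- The subset of the generic ring that is named by `π`. -/
def Wl.J (w : Wl B π) : Set w.q.R := {x | realC (w.q.e x) ∈ val w.N w.G π}

theorem map_e {p q : Cn B} {g : p.R →ₐ[F] q.R} (h : ∀ x, q.e (g x) = p.e x) (v : List p.R) :
    (v.map g).map q.e = v.map p.e := by
  rw [List.map_map]; exact List.map_congr_left fun x _ => h x

theorem Wl.lst (w : Wl B π) (v : List w.q.R) :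
    ∃ p ∈ w.G, ∃ u : List p.R, u.map p.e = v.map w.q.e := by
  induction v with
  | nil => exact (w.cov 0).2.imp fun p k => ⟨k.1, [], rfl⟩
  | cons x v ih =>
    obtain ⟨p, a1, u, a2⟩ := ih
    obtain ⟨p', a3, y, a4⟩ := (w.cov x).2
    obtain ⟨r, a5, ⟨g, a6, -⟩, g', a7, -⟩ := w.gg.f.2 p a1 p' a3
    exact ⟨r, a5, g' y :: u.map g, by rw [List.map_cons, map_e a6, a7, a2, a4]; rfl⟩

/-- Ring terms. -/
inductive Pl : Type
  | v : ℕ → Pl
  | one : Pl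
  | mul : Pl → Pl → Pl
  | sub : Pl → Pl → Pl

/-- The value of a term. -/
def Pl.ev {R : Type} [Ring R] (l : List R) : Pl → R
  | .v i => l.getD i 0
  | .one => 1
  | .mul a b => a.ev l * b.ev l
  | .sub a b => a.ev l - b.ev l

theorem Pl.nat {A R : Type} [Ring A] [Ring R] [Algebra F A] [Algebra F R] (g : A →ₐ[F] R)
    (l : List A) (t : Pl) : t.ev (l.map g) = g (t.ev l) := by
  induction t with
  | v i => rw [ev, ev, ← map_zero g, List.getD_map]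
  | one => exact (map_one g).symm
  | mul a b h k => rw [ev, ev, h, k, map_mul]
  | sub a b h k => rw [ev, ev, h, k, map_sub]

theorem Wl.tm (w : Wl B π) (t : Pl) (v : List w.q.R) (k : ℝ) :
    Hd w.G {p | ∃ u : List p.R, u.map p.e = v.map w.q.e ∧ p.e (t.ev u) = k} ↔
      w.q.e (t.ev v) = k := by
  have : ∀ p ∈ w.G, ∀ u : List p.R, u.map p.e = v.map w.q.e → p.e (t.ev u) = w.q.e (t.ev v) :=
    fun p a u b => by
      obtain ⟨g, c, -⟩ := w.le p a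
      rw [← c, ← Pl.nat, (List.map_injective_iff.2 w.q.inj) ((map_e c u).trans b)]
  refine ⟨fun ⟨p, a, u, b, c⟩ => (this p a u b).symm.trans c, fun c => ?_⟩
  obtain ⟨p, a, u, b⟩ := w.lst v
  exact ⟨p, a, u, b, (this p a u b).trans c⟩

theorem Wl.car (w : Wl B π) (k : ℝ) : Hd w.G {p | k ∈ range p.e} ↔ k ∈ range w.q.e :=
  ⟨fun ⟨p, a, y, b⟩ => let ⟨g, c, _⟩ := w.le p a; ⟨g y, (c y).trans b⟩,
    fun ⟨x, b⟩ => b ▸ (w.cov x).2⟩

/-- Properties of the generic ring and the named subset that are decided by forcing. -/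
def Ab (P : ∀ q : Cn B, Set q.R → List q.R → Prop) : Prop :=
  ∃ Φ : Nm (Cn B) × List ℝ → Set Wd → Set (Cn B) → Prop, Fc Le Φ ∧ ∀ᶠ N in Club,
    ∀ π (w : Wl B π), w.N = N → ∀ v, (P w.q w.J v ↔ Φ (π, v.map w.q.e) w.N w.G)

variable {P Q : ∀ q : Cn B, Set q.R → List q.R → Prop}

theorem Ab.not (h : Ab P) : Ab fun q S v => ¬ P q S v :=
  let ⟨_, a, b⟩ := h; ⟨_, a.not, b.mono fun _ k π w e v => not_congr (k π w e v)⟩

theorem Ab.and (h : Ab P) (k : Ab Q) : Ab fun q S v => P q S v ∧ Q q S v :=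
  let ⟨_, a, b⟩ := h; let ⟨_, c, d⟩ := k
  ⟨_, a.and c, (b.and d).mono fun _ k π w e v => and_congr (k.1 π w e v) (k.2 π w e v)⟩

theorem Ab.congr (h : Ab P) (k : ∀ q S v, Q q S v ↔ P q S v) : Ab Q :=
  let ⟨_, a, b⟩ := h; ⟨_, a, b.mono fun _ l π w e v => (k _ _ _).trans (l π w e v)⟩

theorem Ab.or (h : Ab P) (k : Ab Q) : Ab fun q S v => P q S v ∨ Q q S v :=
  (h.not.and k.not).not.congr fun _ _ _ => by tauto

theorem Ab.imp (h : Ab P) (k : Ab Q) : Ab fun q S v => P q S v → Q q S v :=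
  (h.and k.not).not.congr fun _ _ _ => by tauto

theorem Ab.ex (h : Ab P) : Ab fun q S v => ∃ x, P q S (x :: v) := by
  obtain ⟨Φ, a, b⟩ := h
  refine ⟨_, Fc.ex fo (Θ := fun a (k : ℝ) N G => Hd G {p | k ∈ range p.e} ∧ Φ (a.1, k :: a.2) N G)
    ((Fc.hd _).and (a.comap _)), b.mono fun _ l π w e v =>
      ⟨fun ⟨x, k⟩ => ⟨_, (w.cov x).1, (w.cov x).2, (l π w e _).1 k⟩, fun ⟨k, _, c, d⟩ => ?_⟩⟩
  obtain ⟨x, rfl⟩ := (w.car k).1 c
  exact ⟨x, (l π w e _).2 d⟩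

theorem Ab.all (h : Ab P) : Ab fun q S v => ∀ x, P q S (x :: v) :=
  h.not.ex.not.congr fun _ _ _ => by simp

theorem ab_at (t : Pl) : Ab (B := B) fun _ S v => t.ev v ∈ S :=
  ⟨_, Fc.ex fo (Θ := fun (a : Nm (Cn B) × List ℝ) (k : ℝ) N G => Hd G {p | ∃ u : List p.R,
      u.map p.e = a.2 ∧ p.e (t.ev u) = k} ∧ realC k ∈ val N G a.1)
    ((Fc.hd _).and (Tm.mem fo ((Tm.real le_tp fo).comap _) (Tm.val _))),
    Eventually.of_forall fun _ π w _ v => ⟨fun k => ⟨_, (w.cov _).1, (w.tm t v _).2 rfl, k⟩,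
      fun ⟨k, _, c, d⟩ => show realC _ ∈ _ from ((w.tm t v k).1 c).symm ▸ d⟩⟩

theorem club_lst : ∀ᶠ N in Club, ∀ v : List ℝ, (∀ x ∈ v, In N x) → In N v := by
  filter_upwards [clo0 ([] : List ℝ), clo2 (List.cons : ℝ → _)] with N h1 h2 v hv
  induction v with
  | nil => exact h1
  | cons a v ih =>
    exact h2 a v (hv a List.mem_cons_self) (ih fun τ h => hv τ (List.mem_cons_of_mem _ h))

/-- The property passes from smaller worlds to larger ones. -/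
def Up (P : ∀ q : Cn B, Set q.R → List q.R → Prop) (A : Set Wd → Prop) : Prop :=
  ∀ π (w w' : Wl B π), A w.N → A w'.N → w'.G ⊆ w.G → ∀ g : w'.q.R →ₐ[F] w.q.R,
    (∀ x, w.q.e (g x) = w'.q.e x) → ∀ v, P w'.q w'.J v → P w.q w.J (v.map g)

theorem Ab.up (h : Ab P) : ∃ A, (∀ᶠ N in Club, A N) ∧ Up P A := by
  obtain ⟨Φ, ⟨b, a⟩, c⟩ := h
  have : ∀ᶠ N in Club, ∀ π (w : Wl B π), w.N = N → ∀ v,
      (P w.q w.J v ↔ Hd w.G (b (π, v.map w.q.e))) := by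
    filter_upwards [a, c, club_lst, clo_pair (Nm (Cn B)) (List ℝ)] with N a c d d' π w e v
    subst e
    exact (c π w rfl v).trans (a _ w.gg _ ((d' _ _).2 ⟨w.hπ, d _ fun x k => by
      obtain ⟨y, -, rfl⟩ := List.mem_map.1 k
      exact (w.cov y).1⟩))
  refine ⟨_, this, fun π w w' k l m g e v n => (k π w rfl _).2 ?_⟩
  obtain ⟨p, a1, a2⟩ := (l π w' rfl v).1 n
  exact ⟨p, m a1, by rwa [map_e e]⟩

open Pl in
theorem ab_hyp : Ab (B := B) fun _ S _ => (1 ∉ S ∧ ∀ x, x ∉ S → ∃ c, x * c - 1 ∈ S) ∨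
    ((1 ∉ S ∧ ∀ a, a ∉ S → ∀ b, b ∉ S → ∃ r s, a * r - b * s ∈ S ∧ a * r ∉ S) ∧
      ∀ a, a ∉ S → ∃ r, a * r ∉ S ∧ ∀ s, a - a * r * s ∉ S) :=
  ((ab_at one).not.and ((ab_at (v 0)).not.imp (ab_at (((v 1).mul (v 0)).sub one)).ex).all).or
    (((ab_at one).not.and ((ab_at (v 0)).not.imp ((ab_at (v 0)).not.imp
      ((ab_at (((v 3).mul (v 1)).sub ((v 2).mul (v 0)))).and
        (ab_at ((v 3).mul (v 1))).not).ex.ex).all).all).and
      ((ab_at (v 0)).not.imp ((ab_at ((v 1).mul (v 0))).not.and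
        (ab_at ((v 2).sub (((v 2).mul (v 1)).mul (v 0)))).not.all).ex).all)

open Pl in
theorem key (h : St_STEP F) : ∀ᶠ N in Club, ∀ π (w : Wl B π), w.N = N → ∀ J : RI w.q.R,
    ↑J = w.J → Hyp J → MaxR J ∧ ∃ X ∉ J, ∀ i ∈ ext w.q.ι B.I, X * i ∈ J := by
  obtain ⟨A0, a0, b0⟩ := (ab_at (B := B) (v 0)).up
  obtain ⟨A1, a1, b1⟩ := (ab_at (B := B) (v 0)).not.up
  obtain ⟨A2, a2, b2⟩ := (ab_hyp (B := B)).not.up
  obtain ⟨A3, a3, b3⟩ := ((ab_at (B := B) (v 0)).imp (ab_at ((v 1).mul (v 0)))).all.up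
  obtain ⟨A4, a4, b4⟩ := (ab_at (B := B) ((v 2).sub ((v 1).mul (v 0)))).not.all.up
  have a := a0.and (a1.and (a2.and (a3.and a4)))
  filter_upwards [a, clo1 fun π => {q | ∃ w : Wl B π, (A0 w.N ∧ A1 w.N ∧ A2 w.N ∧ A3 w.N ∧ A4 w.N) ∧
    Le q w.q ∧ ∀ J : RI w.q.R, ↑J = w.J → Hyp J → Con w.q q J}] with N c d π w e J j1 j2
  subst e
  obtain ⟨q, ⟨u, c', l1, l2⟩, hq, -⟩ := w.gg.g _ (d π w.hπ) fun p _ => by
    obtain ⟨_, k, u, rfl, k'⟩ := (a.and (club_wl p π)).exists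
    obtain ⟨q, l1, l2⟩ := step h u.q u.J
    exact ⟨q, ⟨u, k, l1, l2⟩, fo.tr l1 (u.le p k')⟩
  have s : u.G ⊆ w.G := fun p k => w.gg.f.1 q hq p (fo.tr l1 (u.le p k))
  obtain ⟨g, g1, g2⟩ := w.le q hq
  obtain ⟨f', f1, -⟩ := l1
  have e0 : ∀ x, w.q.e ((g.comp f') x) = u.q.e x := fun x => (g1 _).trans (f1 x)
  have e1 : ↑(cmp (g.comp f') J) = u.J := Set.ext fun x =>
    ⟨fun k => by_contra fun l => b1 π w u c.2.1 c'.2.1 s _ e0 [x] l (by rw [← j1]; exact k),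
      fun k => show _ ∈ (J : Set w.q.R) from j1 ▸ b0 π w u c.1 c'.1 s _ e0 [x] k⟩
  obtain ⟨f, f2, l3⟩ := l2 _ e1 (by_contra fun k =>
    b2 π w u c.2.2.1 c'.2.2.1 s _ e0 [] (by rw [← e1]; exact k) (by rw [← j1]; exact j2))
  obtain rfl : f = f' := AlgHom.ext fun x => q.inj (by rw [f1, f2])
  have e2 := ext_comp (g.comp f) (hι e0) B.I
  have j3 := j2.elim MaxR.unif And.left
  obtain l | ⟨l3, l4⟩ := l3
  · exact e2 ▸ fin_iso u.q.good.reg j3.1 (e2 ▸ w.q.sI.1) l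
  · refine (fin_kept j3 l3 (g2 _ l4).1 (w.q.nu _ (g2 _ l4).2) (fun r k => ?_) fun a b k => ?_).elim
    · have := b3 π w u c.2.2.2.1 c'.2.2.2.1 s _ e0 [r] (by rw [← e1]; exact k)
      rwa [← j1] at this
    · have := b4 π w u c.2.2.2.2 c'.2.2.2.2 s _ e0 [a, b] (by rw [← e1]; exact k)
      rwa [← j1] at this

end Z41F
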