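import Pool.Agent.Lib.MP_1e63be_al.Z41.Cod

/-!
Maximal cliques exist in generic extensions of countable hulls.
-/

namespace Pool.Agent.Lib.MP_1e63be_al.Z41

open Pool.Agent.Lib.MP_fecf72_lc Pool.Agent.Lib.MP_d63cb0_gt.H15 Set Filter

variable {U : Type 1} {R : U → U → Prop}

open Classical in
/-- Name for a maximal clique. -/
noncomputable def mq (R : U → U → Prop) (b : Nm U × Nm U → Set U) : Nm U → Set U :=
  (WellOrderingRel.isWellOrder (α := Nm U)).wf.fix fun c m =>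
    {p | (∃ s ∈ b (c, c), R p s) ∧ ∀ q, R q p → ∀ j, ∀ h : WellOrderingRel j c, (∃ s ∈ m j h, R q s) →
      ∃ r, R r q ∧ ∃ s ∈ b (c, j), R r s}

theorem mq_eq (b : Nm U × Nm U → Set U) (c : Nm U) : mq R b c =
    {p | (∃ s ∈ b (c, c), R p s) ∧ ∀ q, R q p → ∀ j, WellOrderingRel j c → (∃ s ∈ mq R b j, R q s) →
      ∃ r, R r q ∧ ∃ s ∈ b (c, j), R r s} := by
  rw [mq, WellFounded.fix_eq]

theorem club_mq (hR : Fo R) : ∀ᶠ N in Club, ∀ G, GG N R G → ∀ b : Nm U × Nm U → Set U, In N b →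
    ∀ c, In N c → (Hd G (mq R b c) ↔ Hd G (b (c, c)) ∧
      ∀ j, In N j → WellOrderingRel j c → Hd G (mq R b j) → Hd G (b (c, j))) := by
  filter_upwards [clo0 (eN : Nm U), clo_pair (Nm U × Nm U → Set U) (Nm U),
    clo_pair (Nm U × Nm U → Set U) (Nm U × Nm U), clo_pair (Nm U) (Nm U),
    club_wit2 hR fun (z : (Nm U × Nm U → Set U) × Nm U × Nm U) q (_ : ℕ) => ∃ s ∈ z.1 z.2, R q s,
    club_wit2 hR fun (z : (Nm U × Nm U → Set U) × Nm U) q (j : Nm U) => q ∈ mq R z.1 z.2 ∨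
      (WellOrderingRel j z.2 ∧ (∃ s ∈ mq R z.1 j, R q s) ∧
        ∀ r, R r q → ∀ s ∈ z.1 (z.2, j), ¬ R r s)]
    with N he cp cp' cq w1 w2 G hG b hb c hc
  constructor
  · rintro ⟨p, hp, h1⟩
    rw [mq_eq] at h1
    obtain ⟨⟨s, h2, h3⟩, h1⟩ := h1
    refine ⟨⟨s, hG.f.1 p hp s h3, h2⟩, fun j hj a1 ⟨t, a2, a3⟩ => ?_⟩
    obtain ⟨q, h4, h5, h6⟩ := hG.f.2 p hp t a2
    obtain ⟨r, h7, -, -, s, h8, h9⟩ := w1 G hG (b, c, j) ((cp' _ _).2 ⟨hb, (cq _ _).2 ⟨hc, hj⟩⟩)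
      ⟨q, h4, fun r hr => by
        obtain ⟨r', a4, a5⟩ := h1 r (hR.tr hr h5) j a1 ⟨t, a3, hR.tr hr h6⟩
        exact ⟨r', 0, a4, a5⟩⟩
    exact ⟨s, hG.f.1 r h7 s h9, h8⟩
  · rintro ⟨⟨s0, hq0, h0⟩, h⟩
    obtain ⟨q, hq, j, hj, h1 | ⟨h1, ⟨t, h2, h3⟩, h4⟩⟩ := w2 G hG (b, c) ((cp _ _).2 ⟨hb, hc⟩)
      ⟨s0, hq0, fun r hr => by
        by_cases k : r ∈ mq R b c
        · exact ⟨r, eN, hR.l hr, Or.inl k⟩
        · rw [mq_eq] at k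
          have k' := fun a => k ⟨⟨s0, h0, hr⟩, a⟩
          simp only [not_forall, not_exists, not_and, imp_false] at k'
          obtain ⟨q, a1, j, a2, a3, a4⟩ := k'
          exact ⟨q, j, a1, Or.inr ⟨a2, a3, a4⟩⟩⟩
    · exact ⟨q, hq, h1⟩
    · obtain ⟨s, a1, a2⟩ := h j hj h1 ⟨t, hG.f.1 q hq t h3, h2⟩
      obtain ⟨r, -, h5, h6⟩ := hG.f.2 q hq s a1
      exact (h4 r h5 s a2 h6).elim

theorem tm_eq {ι : Type 2} {s t : ι → Set Wd → Set U → V} (hR : Fo R) (h : Tm R s) (k : Tm R t) :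
    Fc R fun a N G => s a N G = t a N G := by
  obtain ⟨n, h⟩ := h.nm
  obtain ⟨m, k⟩ := k.nm
  refine ⟨fun a => {p | FEq R (n a) (m a) p}, ?_⟩
  filter_upwards [h, k, club_eq hR] with N h1 h2 h3 G hG a ha
  rw [← (h1 G hG a ha).2, ← (h2 G hG a ha).2]
  exact h3 G hG _ _ (h1 G hG a ha).1 (h2 G hG a ha).1

theorem club_clq {tp : U} (ht : ∀ p, R p p → R p tp) (hR : Fo R) :
    ∀ᶠ N in Club, ∀ G, GG N R G → Clq (Mod N G) := by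
  have h1 := Fc.int (R := R) (Θ := fun (a : Nm U × Nm U) (k : Nm U × Nm U) N G =>
      val N G k.1 ∈ val N G a.1 ∧ ZFSet.pair (val N G k.1) (val N G k.2) ∈ val N G a.2 ∧
        ZFSet.pair (val N G k.2) (val N G k.1) ∈ val N G a.2)
    ((Tm.mem hR (Tm.val _) (Tm.val _)).and
      ((Tm.mem hR (Tm.pair ht hR (Tm.val _) (Tm.val _)) (Tm.val _)).and
        (Tm.mem hR (Tm.pair ht hR (Tm.val _) (Tm.val _)) (Tm.val _))))
  have h2 := (Tm.imS hR (κ := Unit) (t := fun (a : Nm U × (Nm U × Nm U → Set U)) N G => val N G a.1)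
    (Θ := fun a z _ N G => ∃ c, In N c ∧ val N G c = z ∧ Hd G (mq R a.2 c))
    (s := fun _ z _ _ _ => z) (Tm.val _)
    (Fc.ex hR ((tm_eq hR (Tm.val _) (Tm.val _)).and (Fc.hd _))) (Tm.val _)).mod
  filter_upwards [h1, h2, club_mq hR, club_countable, clo_pair (Nm U) (Nm U), clo0 (),
    clo_pair (Nm U) (Nm U × Nm U → Set U)] with N h1 h2 h3 hc cp cu cq G hG
  rintro _ ⟨π, a1, rfl⟩ _ ⟨κ, a2, rfl⟩
  obtain ⟨b, b1, b2⟩ := h1 G hG (π, κ) ((cp _ _).2 ⟨a1, a2⟩)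
  have b3 := fun c j hc hj => b2 (c, j) ((cp _ _).2 ⟨hc, hj⟩)
  refine ⟨_, h2 G hG (π, b) ((cq _ _).2 ⟨a1, b1⟩), fun x hx => ?_, fun x hx y hy => ?_,
    fun x hx k l => ?_⟩
  · obtain ⟨z, c1, -, -, rfl⟩ := mem_imS.1 hx
    exact c1
  · obtain ⟨_, -, -, ⟨-, c, c1, rfl, c2⟩, rfl⟩ := mem_imS.1 hx
    obtain ⟨_, -, -, ⟨-, j, d1, rfl, d2⟩, rfl⟩ := mem_imS.1 hy
    rcases trichotomous_of WellOrderingRel c j with e | rfl | e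
    · exact ((b3 _ _ d1 c1).2 (((h3 G hG b b1 j d1).1 d2).2 c c1 e c2)).2.2
    · exact ((b3 _ _ c1 c1).2 ((h3 G hG b b1 c c1).1 c2).1).2.1
    · exact ((b3 _ _ c1 d1).2 (((h3 G hG b b1 c c1).1 c2).2 j d1 e d2)).2.1
  · obtain ⟨c, -, -, -, c1, rfl⟩ := (mem_val hc).1 hx
    refine mem_imS.2 ⟨_, hx, (), ⟨cu, c, c1, rfl, (h3 G hG b b1 c c1).2
      ⟨(b3 _ _ c1 c1).1 ⟨hx, k, k⟩, fun j d1 _ d2 => (b3 _ _ c1 d1).1 ⟨hx, l _ (mem_imS.2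
        ⟨_, ((b3 _ _ d1 d1).2 ((h3 G hG b b1 j d1).1 d2).1).1, (), ⟨cu, j, d1, rfl, d2⟩, rfl⟩)⟩⟩⟩,
      rfl⟩

end Pool.Agent.Lib.MP_1e63be_al.Z41
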