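import Pool.Agent.Lib.MP_1e63be_al.Z41.Force
import Pool.Agent.Lib.MP_1e63be_al.Z41.Dual
import Pool.Agent.Lib.MP_1e63be_al.Z41.Tukey

/-!
The frame: from the two algebraic statements to the model.
-/

namespace Z41F

open Z87 Pool.Agent.Lib.MP_fecf72_lc Pool.Agent.Lib.MP_d63cb0_gt.H15 Set Function Filter
open Pool.Agent.Lib.MP_1e63be_al MulOpposite
open Z41 (RingIn ZgIn Cd cd MP MF MM Clq gr gr2 mf_fst mf_snd mf_id mf_const)

variable {F : Type} [Field F]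

section
variable {B : Bs F}

theorem club_car : ∀ᶠ N in Club, ∀ π (w : Wl B π), w.N = N →
    img univ (fun x => realC (w.q.e x)) ∈ Mod w.N w.G := by
  filter_upwards [(Tm.img le_tp fo (Θ := fun (_ : Unit) (k : ℝ) _ G =>
    Hd G {p : Cn B | k ∈ range p.e}) (s := fun _ k _ _ => realC k) (Fc.hd _)
    ((Tm.real le_tp fo).comap _)).mod, clo0 ()] with N h u π w e
  subst e
  convert h _ w.gg () u using 1
  ext y
  simp only [mem_img]
  exact ⟨fun ⟨x, _, e⟩ => ⟨_, w.cov x, e⟩, fun ⟨k, a, e⟩ =>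
    let ⟨x, b⟩ := (w.car k).1 a.2; ⟨x, trivial, b ▸ e⟩⟩

theorem club_op (t : Pl) : ∀ᶠ N in Club, ∀ π (w : Wl B π), w.N = N →
    gr2 (fun x => realC (w.q.e x)) (fun x => realC (w.q.e x)) (fun x => realC (w.q.e x))
      (fun a b => t.ev [a, b]) ∈ Mod w.N w.G := by
  filter_upwards [(Tm.img le_tp fo (Θ := fun (_ : Unit) (k : ℝ × ℝ × ℝ) _ G =>
    Hd G {p : Cn B | k.1 ∈ range p.e} ∧ Hd G {p : Cn B | k.2.1 ∈ range p.e} ∧
      Hd G {p | ∃ u : List p.R, u.map p.e = [k.1, k.2.1] ∧ p.e (t.ev u) = k.2.2})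
    (s := fun _ k _ _ => ZFSet.pair (ZFSet.pair (realC k.1) (realC k.2.1)) (realC k.2.2))
    ((Fc.hd _).and ((Fc.hd _).and (Fc.hd _)))
    (Tm.pair le_tp fo (Tm.pair le_tp fo ((Tm.real le_tp fo).comap _) ((Tm.real le_tp fo).comap _))
      ((Tm.real le_tp fo).comap _))).mod, clo0 (), clo_pair ℝ ℝ, clo_pair ℝ (ℝ × ℝ)]
    with N h u c d π w e
  subst e
  convert h _ w.gg () u using 1
  ext y
  simp only [gr2, gr, mem_img]
  refine ⟨fun ⟨x, _, e⟩ => ⟨(_, _, _), ⟨(d _ _).2 ⟨(w.cov x.1).1, (c _ _).2 ⟨(w.cov x.2).1,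
    (w.cov _).1⟩⟩, (w.cov x.1).2, (w.cov x.2).2, (w.tm t [x.1, x.2] _).2 rfl⟩, e⟩, ?_⟩
  rintro ⟨⟨k1, k2, k3⟩, ⟨-, a1, a2, a3⟩, e⟩
  obtain ⟨x1, rfl⟩ := (w.car k1).1 a1
  obtain ⟨x2, rfl⟩ := (w.car k2).1 a2
  obtain rfl := (w.tm t [x1, x2] k3).1 a3
  exact ⟨(x1, x2), trivial, e⟩

theorem club_gr (A : Set B.R) : ∀ᶠ N in Club, ∀ π (w : Wl B π), w.N = N →
    img (w.q.ι '' A) (fun x => realC (w.q.e x)) ∈ Mod w.N w.G := by
  filter_upwards [(Tm.img (R := Le (B := B)) le_tp fo (Θ := fun (_ : Unit) (k : ℝ) _ _ =>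
    k ∈ B.e '' A) (s := fun _ k _ _ => realC k) (Fc.ground _)
    ((Tm.real le_tp fo).comap _)).mod, clo0 ()] with N h u π w e
  subst e
  convert h _ w.gg () u using 1
  ext y
  simp only [mem_img]
  constructor
  · rintro ⟨_, ⟨x, a, rfl⟩, e⟩
    exact ⟨_, ⟨(w.cov _).1, x, a, (w.q.eι x).symm⟩, e⟩
  · rintro ⟨_, ⟨-, x, a, rfl⟩, e⟩
    exact ⟨_, ⟨x, a, rfl⟩, (w.q.eι x).symm ▸ e⟩

end

section
variable {A R : Type} [Ring A] [Ring R] [Algebra F A] [Algebra F R]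

/-- Two left ideals in one. -/
def two (i0 i1 : A) (L1 L2 : Ideal A) : Ideal A where
  carrier := {y | y * i0 ∈ L1 ∧ y * i1 ∈ L2}
  add_mem' a b := ⟨by simpa [add_mul] using L1.add_mem a.1 b.1,
    by simpa [add_mul] using L2.add_mem a.2 b.2⟩
  zero_mem' := by simp
  smul_mem' c _ a := ⟨by simpa [mul_assoc] using L1.mul_mem_left c a.1,
    by simpa [mul_assoc] using L2.mul_mem_left c a.2⟩

theorem two_ess (hA : Reg A) {f : A →ₐ[F] R} {i0 i1 j0 j1 : A} (a1 : j0 * i0 = 1)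
    (a2 : j1 * i1 = 1) (a3 : j0 * i1 = 0) (a4 : j1 * i0 = 0) {L1 L2 : Ideal A}
    (h : LEssExt f (two i0 i1 L1 L2)) (x1 x2 : R) : (x1 ∈ lext f L1 ∧ x2 ∈ lext f L2) ∨
      ∃ r c1 c2, ¬ (c1 ∈ L1 ∧ c2 ∈ L2) ∧ r * x1 - f c1 ∈ lext f L1 ∧ r * x2 - f c2 ∈ lext f L2 := by
  have b : ∀ y ∈ lext f (two i0 i1 L1 L2), y * f i0 ∈ lext f L1 ∧ y * f i1 ∈ lext f L2 :=
    fun y k => by
      obtain ⟨c, k1, k2⟩ := (mem_lext hA f).1 k
      rw [← k2, mul_assoc, mul_assoc, ← map_mul, ← map_mul]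
      exact ⟨lext_mul f k1.1 y, lext_mul f k1.2 y⟩
  have c1 : (x1 * f j0 + x2 * f j1) * f i0 = x1 := by
    simp [add_mul, mul_assoc, ← map_mul, a1, a4]
  have c2 : (x1 * f j0 + x2 * f j1) * f i1 = x2 := by
    simp [add_mul, mul_assoc, ← map_mul, a2, a3]
  refine (h (x1 * f j0 + x2 * f j1)).imp (fun k => c1 ▸ c2 ▸ ?_) fun ⟨r, c, k1, k2⟩ =>
    ⟨r, c * i0, c * i1, k1, ?_⟩
  · simpa only [c1, c2] using b _ k
  · simpa only [sub_mul, mul_assoc r, c1, c2, map_mul] using b _ k2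

theorem max_left (hA : Reg A) {f : A →ₐ[F] R} (hf : Injective f) {L : Ideal A} (h : MaxL L)
    (k : ∀ x ∉ lext f L, ∃ r c, c ∉ L ∧ r * x - f c ∈ lext f L) : (lext f L).IsMaximal := by
  refine Ideal.isMaximal_iff.2 ⟨fun e => h.1 (lext_const hA f hf (by rwa [map_one])),
    fun J x a1 a2 a3 => ?_⟩
  obtain ⟨r, c, b1, b2⟩ := k x a2
  obtain ⟨d, b3⟩ := h.2 c b1
  convert J.sub_mem (J.sub_mem (J.mul_mem_left (f d * r) a3) (J.mul_mem_left (f d) (a1 b2)))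
    (a1 (lext_of f b3)) using 1
  rw [map_sub, map_mul, map_one]; noncomm_ring

/-- A left ideal of the opposite ring as a right ideal. -/
def toR (J : Ideal Rᵐᵒᵖ) : RI R where
  carrier := {x | op x ∈ J}
  add_mem' := J.add_mem
  zero_mem' := J.zero_mem
  smul_mem' c _ a := J.mul_mem_left c a

/-- A right ideal as a left ideal of the opposite ring. -/
def toL (J : RI R) : Ideal Rᵐᵒᵖ where
  carrier := {x | x.unop ∈ J}
  add_mem' := J.add_mem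
  zero_mem' := J.zero_mem
  smul_mem' c _ a := J.smul_mem c a

end

theorem fin {M : Set V} (hM : IsZFC M) (hC : Clq M) {A R : Type} [Ring A] [Ring R] [Algebra F A]
    [Algebra F R] {c : R → V} (hR : RingIn M R c) (hA : Reg A) (g : Good F R) {f : A →ₐ[F] R}
    (hf : Injective f) {I : RI A} {L1 L2 : Ideal A} (mI : img (f '' I) c ∈ M)
    (m1 : img (f '' L1) c ∈ M) (m2 : img (f '' L2) c ∈ M) (sI : MaxR (ext f I)) (x1 : MaxL L1)
    (x2 : MaxL L2) (ni : ∀ c, (∀ y ∈ L2, y * c ∈ L1) → c ∈ L1)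
    (le : ∀ x1 x2, (x1 ∈ lext f L1 ∧ x2 ∈ lext f L2) ∨ ∃ r c1 c2, ¬ (c1 ∈ L1 ∧ c2 ∈ L2) ∧
      r * x1 - f c1 ∈ lext f L1 ∧ r * x2 - f c2 ∈ lext f L2)
    (ky : ∀ J : RI R, img J c ∈ M → Hyp J → MaxR J ∧ ∃ X ∉ J, ∀ i ∈ ext f I, X * i ∈ J) :
    (HasCBRank (ZgIn M Rᵐᵒᵖ fun x => c x.unop) 0 ∧
      Subsingleton (ZgIn M Rᵐᵒᵖ fun x => c x.unop)) ∧ Nontrivial (ZgIn M R c) ∧
      HasCBRank (ZgIn M R c) ⊤ ∧ ∀ U : Set (ZgIn M R c), IsOpen U → U = ∅ ∨ U = univ := by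
  have : Fact (IsZFC M) := ⟨hM⟩
  let _ : Cd M R := ⟨c, hR.inj, hR.mem⟩
  let _ : Cd M Rᵐᵒᵖ := Cd.ofInj unop unop_injective (Z41.mp_true.congr fun x => by simp)
  have h : MM M R R := ⟨⟨hR.add⟩, ⟨hR.mul⟩⟩
  have u : MF M (unop : Rᵐᵒᵖ → R) := MF.of_cd fun _ => rfl
  have o : MF M (op : R → Rᵐᵒᵖ) := MF.of_cd fun _ => rfl
  have h' : MM M Rᵐᵒᵖ Rᵐᵒᵖ := ⟨u.lift unop_injective (h.ad (u.comp mf_fst) (u.comp mf_snd)),
    u.lift unop_injective (h.sm (u.comp mf_snd) (u.comp mf_fst))⟩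
  have ml : ∀ L : Ideal A, img (f '' L) c ∈ M → MP M fun x => x ∈ lext f L := fun L k =>
    (MP.ex (p := fun x y : R => y ∈ f '' L ∧ x • y = x) (((MP.mk k).comp mf_snd).and
      (MP.eq (h.sm mf_fst mf_snd) mf_fst))).congr fun x => ((mem_lext hA f).trans
        ⟨fun ⟨y, a, b⟩ => ⟨_, ⟨y, a, rfl⟩, b⟩, fun ⟨_, ⟨y, a, rfl⟩, b⟩ => ⟨y, a, b⟩⟩).symm
  have mr : MP M fun x => x ∈ ext f I :=
    (MP.ex (p := fun x y : R => y ∈ f '' I ∧ y • x = x) (((MP.mk mI).comp mf_snd).and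
      (MP.eq (h.sm mf_snd mf_fst) mf_fst))).congr fun x => ((mem_ext hA f).trans
        ⟨fun ⟨y, a, b⟩ => ⟨_, ⟨y, a, rfl⟩, b⟩, fun ⟨_, ⟨y, a, rfl⟩, b⟩ => ⟨y, a, b⟩⟩).symm
  constructor
  · refine Z41.zg_one h' hC g.reg.opp (fun x k => ?_) (I := toL (ext f I))
      (Ideal.isMaximal_iff.2 ⟨sI.1, fun J x a1 a2 a3 => ?_⟩) (mr.comp u) (fun J a b => ?_)
      fun J a b d e => ?_
    · obtain ⟨s, t, l⟩ := g.pi x.unop (by simpa using k)
      exact ⟨op t, op s, unop_injective (by simpa [mul_assoc] using l)⟩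
    · obtain ⟨d, l⟩ := sI.2 _ a2
      simpa using J.sub_mem (J.mul_mem_left (op d) a3) (a1 (x := op d * x - 1) l)
    · obtain ⟨-, X, l1, l2⟩ := ky (toR J) (a.comp o).out (Or.inl
        ⟨b.ne_top ∘ (Ideal.eq_top_iff_one _).2, fun x k => by
          obtain ⟨y, z, k1, k2⟩ := b.exists_inv k
          refine ⟨y.unop, show y * op x - 1 ∈ J from ?_⟩
          rw [← k2]
          simpa using k1⟩)
      exact ⟨op X, l1, fun i k => l2 _ k⟩
    · have b' : (1 : Rᵐᵒᵖ) ∉ J := b ∘ (Ideal.eq_top_iff_one _).2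
      obtain ⟨⟨-, l⟩, -⟩ := ky (toR J) (a.comp o).out (Or.inr ⟨⟨b', fun x k y l =>
        let ⟨r, s, m⟩ := d _ k _ l; ⟨r.unop, s.unop, m⟩⟩, fun x k =>
        let ⟨r, m, n⟩ := e _ k; ⟨r.unop, m, fun s => n (op s)⟩⟩)
      obtain ⟨r, m, n⟩ := e 1 b'
      obtain ⟨s, k⟩ := l (r * 1).unop m
      exact n (op s) (by simpa using J.neg_mem (show op s * (r * 1) - 1 ∈ J from k))
  · have k1 := max_left hA hf x1 fun x k => by
      obtain ⟨r, c1, c2, a1, a2, a3⟩ := (le x 0).resolve_left fun l => k l.1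
      exact ⟨r, c1, fun l => a1 ⟨l, lext_const hA f hf (by simpa using a3)⟩, a2⟩
    have k2 := max_left hA hf x2 fun x k => by
      obtain ⟨r, c1, c2, a1, a2, a3⟩ := (le 0 x).resolve_left fun l => k l.2
      exact ⟨r, c2, fun l => a1 ⟨lext_const hA f hf (by simpa using a2), l⟩, a3⟩
    refine Z41.zg_two h hC g.reg g.pi k2 k1 (ml _ m2) (ml _ m1) fun v k => ?_
    obtain l | ⟨r, c1, c2, a1, a2, a3⟩ := le v 1
    · exact l.1
    have b1 : f c2 * v - f c1 ∈ lext f L1 := by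
      convert (lext f L1).sub_mem a2 (k _ a3) using 1
      noncomm_ring
    obtain ⟨d, b2⟩ := x2.2 c2 fun l => a1 ⟨lext_const hA f hf (by
      simpa using (lext f L1).sub_mem (k _ (lext_of f l)) b1), l⟩
    have b3 : v - f (d * c1) ∈ lext f L1 := by
      convert (lext f L1).sub_mem ((lext f L1).mul_mem_left (f d) b1) (k _ (lext_of f b2)) using 1
      simp only [map_sub, map_mul, map_one]; noncomm_ring
    have b4 := ni (d * c1) fun y l => lext_const hA f hf (by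
      convert (lext f L1).sub_mem (k _ (lext_of f l)) ((lext f L1).mul_mem_left (f y) b3) using 1
      rw [map_mul]; noncomm_ring)
    simpa using (lext f L1).add_mem b3 (lext_of f b4)

open Pl in
theorem frame (F : Type) [Field F] (h0 : St_STEP0 F) (h : St_STEP F) :
    ∃ M : Set V, M.Countable ∧ IsZFC M ∧ ∃ (R : Type) (_ : Ring R) (c : R → V), RingIn M R c ∧
      HasCBRank (ZgIn M Rᵐᵒᵖ fun x => c x.unop) 0 ∧ HasCBRank (ZgIn M R c) ⊤ ∧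
      Subsingleton (ZgIn M Rᵐᵒᵖ fun x => c x.unop) ∧ Nontrivial (ZgIn M R c) ∧
      ∀ U : Set (ZgIn M R c), IsOpen U → U = ∅ ∨ U = univ := by
  obtain ⟨A, _, _, _, g, I, sI, L1, L2, x1, x2, ni⟩ := h0
  obtain ⟨i0, i1, j0, j1, a1, a2, a3, a4, -⟩ := g.lea
  obtain ⟨e, he⟩ := exists_injective_nat A
  let B : Bs F := ⟨A, g, I, two i0 i1 L1 L2, sI, fun x => e x, Nat.cast_injective.comp he⟩
  obtain ⟨_, ⟨w, rfl, -⟩, b1, b2, b3, b4, b5, b6, b7, b8, b9, b0⟩ := ((club_wl (tp B) eN).and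
    (club_countable.and ((club_zfc (le_tp (B := B)) fo).and ((Z41.club_clq (le_tp (B := B)) fo).and
    ((club_car (B := B)).and ((club_op (B := B) ((v 0).sub ((one.sub one).sub (v 1)))).and
    ((club_op (B := B) ((v 0).mul (v 1))).and ((club_gr (B := B) I).and ((club_gr (B := B) L1).and
    ((club_gr (B := B) L2).and (key (B := B) h))))))))))).exists
  have hR : RingIn (Mod w.N w.G) w.q.R fun x => realC (w.q.e x) :=
    ⟨realC_inj.comp w.q.inj, b4 _ w rfl, by simpa [Pl.ev] using b5 _ w rfl, b6 _ w rfl⟩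
  obtain ⟨⟨d1, d2⟩, d3, d4, d5⟩ := fin (b2 _ w.gg) (b3 _ w.gg) hR g.reg
    w.q.good (hinj (q := tp B) w.q.eι) (b7 _ w rfl) (b8 _ w rfl) (b9 _ w rfl) w.q.sI.1 x1 x2 ni
    (two_ess g.reg a1 a2 a3 a4 w.q.le) fun J ⟨π, c1, c2⟩ =>
      b0 π ⟨w.N, w.G, w.q, w.gg, w.le, w.cov, c1⟩ rfl J (Set.ext fun x => by
        change _ ↔ realC (w.q.e x) ∈ val w.N w.G π
        rw [c2]
        exact (mem_img' hR.inj).symm)
  exact ⟨_, (countable_In _ b1).image _, b2 _ w.gg, _, _, _, hR, d1, d4, d2, d3, d5⟩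

end Z41F
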