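import Pool.Agent.Lib.MP_1e63be_al.Z41.Cod
import Pool.Agent.Lib.MP_1e63be_al.Z41.Elim

/-!
Injective modules inside a model of ZFC.
-/

namespace Pool.Agent.Lib.MP_1e63be_al.Z41

open Pool.Agent.Lib.MP_fecf72_lc Pool.Agent.Lib.MP_d63cb0_gt.H15 Set Function

variable {M : Set V} [hM : Fact (IsZFC M)] {S : Type} [Ring S] [Cd M S]

/-- The module operations belong to `M`. -/
structure MM (M : Set V) [Fact (IsZFC M)] (S E : Type) [Ring S] [AddCommGroup E] [Module S E]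
    [Cd M S] [Cd M E] : Prop where
  add : MF M fun z : E × E => z.1 + z.2
  smul : MF M fun z : S × E => z.1 • z.2

section
variable {E α : Type} [AddCommGroup E] [Module S E] [Cd M E] [Cd M α]

theorem MM.ad (h : MM M S E) {f g : α → E} (hf : MF M f) (hg : MF M g) :
    MF M fun a => f a + g a := (h.add.comp (hf.pair hg) :)

theorem MM.sm (h : MM M S E) {f : α → S} {g : α → E} (hf : MF M f) (hg : MF M g) :
    MF M fun a => f a • g a := (h.smul.comp (hf.pair hg) :)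

theorem MM.sb (h : MM M S E) {f g : α → E} (hf : MF M f) (hg : MF M g) :
    MF M fun a => f a - g a := by
  simpa [sub_eq_add_neg] using h.ad hf (h.sm (mf_const (-1 : S)) hg)

theorem MM.span (h : MM M S E) (x : E) : MP M fun y => y ∈ Submodule.span S {x} :=
  (MP.ex (p := fun y (r : S) => r • x = y) (MP.eq (h.sm mf_snd (mf_const x)) mf_fst)).congr
    fun _ => Submodule.mem_span_singleton.symm

omit [Cd M S] in
theorem mp_bot : MP M fun y => y ∈ (⊥ : Submodule S E) :=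
  (MP.eq mf_id (mf_const 0)).congr fun _ => (Submodule.mem_bot S).symm

/-- `C` is maximal among the submodules that meet `B` trivially. -/
def Mx (C B : Submodule S E) : Prop :=
  Disjoint C B ∧ ∀ e ∉ C, ∃ r : S, ∃ c ∈ C, r • e + c ∈ B ∧ r • e + c ≠ 0

omit hM [Cd M S] [Cd M E] in
theorem Mx.mono {C B D : Submodule S E} (h : Mx C B) (k : B ≤ D) (l : Disjoint C D) : Mx C D :=
  ⟨l, fun e he => let ⟨r, c, h1, h2, h3⟩ := h.2 e he; ⟨r, c, h1, k h2, h3⟩⟩

theorem MM.mx (h : MM M S E) (hC : Clq M) {A B : Submodule S E} (hA : MP M fun x => x ∈ A)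
    (hB : MP M fun x => x ∈ B) (d : Disjoint A B) :
    ∃ C : Submodule S E, (MP M fun x => x ∈ C) ∧ A ≤ C ∧ Mx C B := by
  obtain ⟨s, h1, ⟨h2, h3, h4, h5⟩, h6⟩ := hC.zorn (Φ := fun s : Set E => (∀ x, x ∈ A → x ∈ s) ∧
    (∀ x y, x ∈ s → y ∈ s → x + y ∈ s) ∧ (∀ (r : S) x, x ∈ s → r • x ∈ s) ∧
      ∀ x, x ∈ s → x ∈ B → x = 0)
    ((MP.all ((hA.comp mf_snd).imp (MP.mem mf_snd mf_fst))).and
      ((MP.all (MP.all ((MP.mem mf_fst.snd mf_fst.fst).imp ((MP.mem mf_snd mf_fst.fst).imp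
        (MP.mem (h.ad mf_fst.snd mf_snd) mf_fst.fst))))).and
      ((MP.all (MP.all ((MP.mem mf_snd mf_fst.fst).imp
        (MP.mem (h.sm mf_fst.snd mf_snd) mf_fst.fst)))).and
      (MP.all ((MP.mem mf_snd mf_fst).imp ((hB.comp mf_snd).imp (MP.eq mf_snd (mf_const 0))))))))
    (by
      rintro Y hY ⟨s, hs⟩ k
      refine ⟨fun x hx => ⟨s, hs, (k s hs).1 x hx⟩, ?_,
        fun r x ⟨t, a, b⟩ => ⟨t, a, (k t a).2.2.1 r x b⟩, fun x ⟨t, a, b⟩ => (k t a).2.2.2 x b⟩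
      rintro x y ⟨t, a, b⟩ ⟨u, c, d⟩
      rcases hY.total a c with e | e
      exacts [⟨u, c, (k u c).2.1 x y (e b) d⟩, ⟨t, a, (k t a).2.1 x y b (e d)⟩])
    (s0 := A) hA ⟨fun _ k => k, fun _ _ => A.add_mem, fun r _ => A.smul_mem r,
      fun x => Submodule.disjoint_def.1 d x⟩
  let C : Submodule S E := ⟨⟨⟨s, fun a b => h3 _ _ a b⟩, h2 0 A.zero_mem⟩, fun r x => h4 r x⟩
  refine ⟨C, h1, h2, Submodule.disjoint_def.2 h5, fun e he => by_contra fun k => he ?_⟩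
  refine h6 {x | ∃ r : S, ∃ c, c ∈ s ∧ r • e + c = x} (MP.ex (MP.ex ((h1.comp mf_snd).and
    (MP.eq (h.ad (h.sm mf_fst.snd (mf_const e)) mf_snd) mf_fst.fst)))) ⟨fun x hx =>
      ⟨0, x, h2 x hx, by simp⟩, ?_, ?_, ?_⟩ (fun x hx => ⟨0, x, hx, by simp⟩)
      ⟨1, 0, h2 0 A.zero_mem, by simp⟩
  · rintro _ _ ⟨r, c, a, rfl⟩ ⟨r', c', a', rfl⟩
    exact ⟨r + r', c + c', h3 _ _ a a', by rw [add_smul]; abel⟩
  · rintro t _ ⟨r, c, a, rfl⟩
    exact ⟨t * r, t • c, h4 _ _ a, by rw [smul_add, mul_smul]⟩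
  · rintro _ ⟨r, c, a, rfl⟩ b
    exact by_contra fun l => k ⟨r, c, a, b, l⟩

theorem mm_prod {E' : Type} [AddCommGroup E'] [Module S E'] [Cd M E'] (h : MM M S E)
    (k : MM M S E') : MM M S (E × E') :=
  ⟨(h.ad mf_fst.fst mf_snd.fst).pair (k.ad mf_fst.snd mf_snd.snd),
    (h.sm mf_fst mf_snd.fst).pair (k.sm mf_fst mf_snd.snd)⟩

end

instance {c : S → V} (N : ModIn M S c) : Cd M N.T := ⟨N.d, N.inj, N.mem⟩

theorem ModIn.mm (N : ModIn M S (cd M)) : MM M S N.T := ⟨⟨N.add⟩, ⟨N.smul⟩⟩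

/-- Bundling. -/
@[reducible] def MM.mod {E : Type} [AddCommGroup E] [Module S E] [Cd M E] (h : MM M S E) :
    ModIn M S (cd M) := ⟨E, cd M, Cd.inj, Cd.mem, h.add.out, h.smul.out⟩

/-- Injective modules of `M`. -/
def Inj (M : Set V) [Fact (IsZFC M)] (S E : Type) [Ring S] [AddCommGroup E] [Module S E]
    [Cd M S] [Cd M E] : Prop :=
  ∀ (A B : Type) [AddCommGroup A] [Module S A] [Cd M A] [AddCommGroup B] [Module S B] [Cd M B],
    MM M S A → MM M S B → ∀ (f : A →ₗ[S] B) (g : A →ₗ[S] E), MF M f → MF M g →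
      Injective f → ∃ h : B →ₗ[S] E, MF M h ∧ ∀ a, h (f a) = g a

theorem ModIn.PureInj.inj (hS : Reg S) {N : ModIn M S (cd M)} (hN : N.PureInj) : Inj M S N.T :=
  fun _ _ _ _ _ _ _ _ hA hB f g hf hg k =>
    let ⟨h, h1, h2⟩ := hN hA.mod hB.mod f hf.out (hS.pure k) g hg.out
    ⟨h, ⟨h1⟩, LinearMap.congr_fun h2⟩

section
variable {E : Type} [AddCommGroup E] [Module S E] [Cd M E]

theorem Inj.pure (h : Inj M S E) (k : MM M S E) : k.mod.PureInj := fun A B f hf hp g hg =>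
  let ⟨h, h1, h2⟩ := h _ _ A.mm B.mm f g ⟨hf⟩ ⟨hg⟩ hp.1
  ⟨h, h1.out, LinearMap.ext h2⟩

/-- Codes for a submodule. -/
@[reducible] noncomputable def subCd {C : Submodule S E} (h : MP M fun x => x ∈ C) : Cd M C :=
  Cd.ofInj Subtype.val Subtype.val_injective (h.congr fun _ => by simp)

omit [Cd M S] in
theorem mf_val {C : Submodule S E} (h : MP M fun x => x ∈ C) :
    letI := subCd h; MF M (Subtype.val : C → E) :=
  letI := subCd h; MF.of_cd fun _ => rfl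

theorem MM.sub (k : MM M S E) {C : Submodule S E} (h : MP M fun x => x ∈ C) :
    letI := subCd h; MM M S C :=
  letI := subCd h
  have v := mf_val h
  ⟨v.lift Subtype.val_injective (k.ad (v.comp mf_fst) (v.comp mf_snd)),
    v.lift Subtype.val_injective (k.sm mf_fst (v.comp mf_snd))⟩

theorem Inj.ext (hN : Inj M S E) {A B : Type} [AddCommGroup A] [Module S A] [Cd M A]
    [AddCommGroup B] [Module S B] [Cd M B] (hB : MM M S B) (f : A →ₗ[S] B) (hf : MF M f)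
    (g : A →ₗ[S] E) (hg : MF M g) (k : ∀ a, f a = 0 → g a = 0) :
    ∃ h : B →ₗ[S] E, MF M h ∧ ∀ a, h (f a) = g a := by
  have h1 : MP M fun x => x ∈ LinearMap.range f := MP.ex (MP.eq (hf.comp mf_snd) mf_fst)
  let _ := subCd h1
  have v := mf_val h1
  let g' : LinearMap.range f →ₗ[S] E := (LinearMap.ker f).liftQ g k ∘ₗ f.quotKerEquivRange.symm
  have h2 : ∀ a, g' ⟨f a, a, rfl⟩ = g a := fun a => by
    exact congrArg ((LinearMap.ker f).liftQ g k) (f.quotKerEquivRange_symm_apply_image a _)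
  obtain ⟨h, h3, h4⟩ := hN _ B (hB.sub h1) hB (LinearMap.range f).subtype g' v
    (mf_iff.2 ((MP.ex (p := fun (z : LinearMap.range f × E) a =>
      f a = z.1.1 ∧ g a = z.2) ((MP.eq (hf.comp mf_snd) (v.comp mf_fst.fst)).and
      (MP.eq (hg.comp mf_snd) mf_fst.snd))).congr (by
        rintro ⟨⟨_, a, rfl⟩, y⟩
        refine ⟨fun ⟨b, k1, k2⟩ => (h2 a).trans (Eq.trans ?_ k2),
          fun l => ⟨a, rfl, (h2 a).symm.trans l⟩⟩
        exact (sub_eq_zero.1 ((map_sub g b a).symm.trans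
          (k _ ((map_sub f b a).trans (sub_eq_zero.2 k1))))).symm))) Subtype.val_injective
  exact ⟨h, h3, fun a => (h4 ⟨f a, a, rfl⟩).trans (h2 a)⟩

theorem Inj.split (hN : Inj M S E) (hE : MM M S E) {C D : Submodule S E}
    (hC : MP M fun x => x ∈ C) (hD : MP M fun x => x ∈ D) (h1 : Mx C D) (h2 : Mx D C) :
    IsCompl C D := by
  let _ := subCd hC
  let _ := subCd hD
  obtain ⟨h, -, h3⟩ := hN.ext hE (C.subtype.coprod D.subtype)
    (hE.ad ((mf_val hC).comp mf_fst) ((mf_val hD).comp mf_snd))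
    (C.subtype ∘ₗ LinearMap.fst S C D) ((mf_val hC).comp mf_fst) fun a k =>
      Submodule.disjoint_def.1 h1.1 _ a.1.2 ((eq_neg_of_add_eq_zero_left k).symm ▸ D.neg_mem a.2.2 :)
  have e1 : ∀ c ∈ C, h c = c := fun c k => by simpa using h3 (⟨c, k⟩, 0)
  have e2 : ∀ d ∈ D, h d = 0 := fun d k => by simpa using h3 (0, ⟨d, k⟩)
  have e3 : ∀ e, h e = 0 → e ∈ D := fun e k => by_contra fun l => by
    obtain ⟨s, d, a1, a2, a3⟩ := h2.2 e l
    exact a3 (by rw [← e1 _ a2, map_add, e2 d a1, add_zero, map_smul, k, smul_zero])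
  have e4 : ∀ e, h e ∈ C := fun e => by_contra fun l => by
    obtain ⟨r, c, a1, a2, a3⟩ := h1.2 _ l
    have : h (r • e + c) = r • h e + c := by rw [map_add, map_smul, e1 c a1]
    obtain ⟨s, d, b1, b2, b3⟩ := h2.2 (r • e + c) fun k => a3 (this ▸ e2 _ k)
    refine b3 (Submodule.disjoint_def.1 h1.1 _ b2 ?_)
    rw [← e1 _ b2, map_add, e2 d b1, add_zero, map_smul, this]
    exact D.smul_mem s a2
  refine ⟨h1.1, Submodule.codisjoint_iff_exists_add_eq.2 fun e =>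
    ⟨h e, e - h e, e4 e, e3 _ ?_, by simp⟩⟩
  rw [map_sub, e1 _ (e4 e), sub_self]

theorem MM.proj (hE : MM M S E) {C D : Submodule S E} (hC : MP M fun x => x ∈ C)
    (hD : MP M fun x => x ∈ D) (c : IsCompl C D) :
    letI := subCd hC; MF M (C.projectionOnto D c) :=
  letI := subCd hC
  mf_iff.2 ((hD.comp (hE.sb mf_fst ((mf_val hC).comp mf_snd))).congr fun z => by
    rw [← Submodule.projectionOnto_apply_eq_zero_iff c, map_sub, sub_eq_zero]
    simp)

end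

theorem ModIn.unif (hS : Reg S) (hC : Clq M) {N : ModIn M S (cd M)} (h1 : N.Indec) (h2 : N.PureInj)
    {x y : N.T} (hx : x ≠ 0) (hy : y ≠ 0) : ∃ r s : S, r • x = s • y ∧ r • x ≠ 0 := by
  by_contra k
  obtain ⟨C, a1, a2, a3⟩ := N.mm.mx hC (N.mm.span x) (N.mm.span y) (Submodule.disjoint_def.2
    fun z b1 b2 => by
      obtain ⟨r, rfl⟩ := Submodule.mem_span_singleton.1 b1
      obtain ⟨s, b3⟩ := Submodule.mem_span_singleton.1 b2
      exact by_contra fun l => k ⟨r, s, b3.symm, l⟩)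
  obtain ⟨D, b1, b2, b3⟩ := N.mm.mx hC (N.mm.span y) a1 a3.1.symm
  rcases h1.2 C D a1.out b1.out ((h2.inj hS).split N.mm a1 b1 (a3.mono b2 b3.1.symm) b3)
    with rfl | rfl
  · exact hx (a2 (Submodule.mem_span_singleton_self x))
  · exact hy (b2 (Submodule.mem_span_singleton_self y))

/-- The element `x` generates an essential simple submodule annihilated by `I`. -/
structure Soc (I : Ideal S) {E : Type} [AddCommGroup E] [Module S E] (x : E) : Prop where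
  ne : x ≠ 0
  ann : ∀ i ∈ I, i • x = 0
  ess : ∀ y ≠ 0, ∃ s : S, s • y = x

omit hM [Cd M S] in
theorem max_gen {I : Ideal S} (hI : I.IsMaximal) {E : Type} [AddCommGroup E] [Module S E] {x : E}
    (h : ∀ i ∈ I, i • x = 0) {r : S} (k : r • x ≠ 0) : ∃ t : S, t • r • x = x := by
  obtain ⟨t, c, h1, h2⟩ := hI.exists_inv fun e => k (h r e)
  refine ⟨t, ?_⟩
  conv_rhs => rw [← one_smul S x, ← h2, add_smul, h c h1, add_zero, mul_smul]

theorem iso_of_soc (hS : Reg S) (hS' : MM M S S) {I : Ideal S} (hI : I.IsMaximal)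
    {N N' : ModIn M S (cd M)} (h : N.PureInj) (h' : N'.PureInj) {x : N.T} {x' : N'.T}
    (k : Soc I x) (k' : Soc I x') : ∃ e : N.T ≃ₗ[S] N'.T, MF M e := by
  obtain ⟨f, a1, a2⟩ := (h'.inj hS).ext N.mm (LinearMap.toSpanSingleton S _ x)
    (N.mm.sm mf_id (mf_const x)) (LinearMap.toSpanSingleton S _ x') (N'.mm.sm mf_id (mf_const x'))
    fun r l => k'.ann r (by_contra fun e => by
      obtain ⟨t, c, h1, h2⟩ := hI.exists_inv e
      exact k.ne (by rw [← one_smul S x, ← h2, add_smul, k.ann c h1, mul_smul,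
        show r • x = 0 from l, smul_zero, add_zero]))
  have a3 : f x = x' := by simpa using a2 1
  have a4 : ∀ y, f y = 0 → y = 0 := fun y l => by_contra fun e => by
    obtain ⟨s, hs⟩ := k.ess y e
    exact k'.ne (by rw [← a3, ← hs, map_smul, l, smul_zero])
  obtain ⟨g, -, b2⟩ := (h.inj hS).ext N'.mm f a1 LinearMap.id mf_id a4
  refine ⟨LinearEquiv.ofBijective f ⟨(injective_iff_map_eq_zero f).2 a4, fun w =>
    ⟨g w, sub_eq_zero.1 (by_contra fun e => ?_)⟩⟩, a1⟩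
  obtain ⟨s, hs⟩ := k'.ess _ e
  exact k.ne (by rw [← show g (f x) = x from b2 x, a3, ← hs, map_smul, map_sub, b2,
    LinearMap.id_apply, sub_self, smul_zero])

theorem hull_of_inj (hC : Clq M) {I : Ideal S} (hI : I.IsMaximal) {E : Type} [AddCommGroup E]
    [Module S E] [Cd M E] (hE : MM M S E) (hj : Inj M S E) {x : E} (h1 : x ≠ 0)
    (h2 : ∀ i ∈ I, i • x = 0) :
    ∃ N : ModIn M S (cd M), N.Indec ∧ N.PureInj ∧ ∃ y : N.T, Soc I y := by
  obtain ⟨D, a1, -, a3⟩ := hE.mx hC mp_bot (hE.span x) disjoint_bot_left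
  obtain ⟨C, b1, b2, b3⟩ := hE.mx hC (hE.span x) a1 a3.1.symm
  have c := hj.split hE b1 a1 b3 (a3.mono b2 b3.1.symm)
  have hx := b2 (Submodule.mem_span_singleton_self x)
  have k : Soc I (E := C) ⟨x, hx⟩ := by
    refine ⟨fun e => h1 (congrArg Subtype.val e), fun i hi => Subtype.ext (h2 i hi), fun y hy => ?_⟩
    obtain ⟨s, d, d1, d2, d3⟩ := a3.2 y.1 fun e =>
      hy (Subtype.ext (Submodule.disjoint_def.1 b3.1 _ y.2 e))
    obtain rfl : d = 0 := Submodule.disjoint_def.1 b3.1 _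
      ((C.add_mem_iff_right (C.smul_mem s y.2)).1 (b2 d2)) d1
    obtain ⟨r, d4⟩ := Submodule.mem_span_singleton.1 d2
    obtain ⟨t, d5⟩ := max_gen hI h2 (d4 ▸ d3 : r • x ≠ 0)
    exact ⟨t * s, Subtype.ext (by simpa [d4, mul_smul] using d5)⟩
  let _ := subCd b1
  refine ⟨(hE.sub b1).mod, ⟨⟨_, _, k.ne⟩, fun A B _ _ hAB => by_contra fun l => ?_⟩,
    Inj.pure (fun A B _ _ _ _ _ _ hA hB f g hf hg hp => ?_) _, _, k⟩
  · rw [not_or] at l
    obtain ⟨a, d1, d2⟩ := Submodule.exists_mem_ne_zero_of_ne_bot l.1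
    obtain ⟨b, d3, d4⟩ := Submodule.exists_mem_ne_zero_of_ne_bot l.2
    obtain ⟨s, hs⟩ := k.ess a d2
    obtain ⟨t, ht⟩ := k.ess b d4
    exact k.ne (Submodule.disjoint_def.1 hAB.1 _ (hs ▸ A.smul_mem s d1) (ht ▸ B.smul_mem t d3))
  · obtain ⟨h, d1, d2⟩ := hj A B hA hB f (C.subtype ∘ₗ g) hf ((mf_val b1).comp hg) hp
    refine ⟨C.projectionOnto D c ∘ₗ h, (hE.proj b1 a1 c).comp d1, fun a => ?_⟩
    simp [d2]

end Pool.Agent.Lib.MP_1e63be_al.Z41
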