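import Pool.Agent.Lib.MP_1e63be_al.Z54.ULeft
import Pool.Agent.Lib.MP_1e63be_al.Z87.UFS
import Pool.Agent.Lib.MP_1e63be_al.Z87.URed
import Pool.Agent.Lib.MP_1e63be_al.Z54.IndD

/-! The sealing step: assembly. -/

namespace Z87

variable {F R P : Type} [Field F] [Ring R] [Algebra F R] [Ring P] [Algebra F P]

theorem inv_of {I J : RI R} (hI : MaxR I) (hJ : MaxR J) {d a : R} (ha : a ∉ J)
    (h : ∀ z, d * (a * z) ∈ I ↔ a * z ∈ J) : ∃ e c, (∀ z, e * z ∈ I ↔ z ∈ J) ∧ e * c - 1 ∈ I ∧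
      c * e - 1 ∈ J ∧ d * a - e * a ∈ I := by
  obtain ⟨c0, h0⟩ := hJ.2 a ha
  have h1 : ∀ z, d * (a * c0) * z ∈ I ↔ z ∈ J := fun z => by
    rw [mul_assoc, mul_assoc, h]
    have := RI.cast (RI.mul h0 z) (show a * (c0 * z) - z = _ by noncomm_ring)
    exact ⟨RI.of_sub' this, RI.of_sub this⟩
  obtain ⟨c, h2⟩ := hI.2 (d * (a * c0)) fun e => hJ.1 ((h1 1).1 (by rwa [mul_one]))
  exact ⟨_, c, h1, h2, (h1 _).1 (RI.cast (RI.mul h2 (d * (a * c0))) (by noncomm_ring)),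
    RI.cast ((h (1 - c0 * a)).2 (RI.cast (RI.symm (RI.cast (RI.mul h0 a)
      (show a * c0 * a - a = _ by noncomm_ring))) (by noncomm_ring))) (by noncomm_ring)⟩

namespace US
variable {U : US F R P} [Infinite F]

/-- The two cases. -/
def Cs (U : US F R P) : Prop :=
  SocFree U.J ∨ (MaxR U.J ∧ U.D = Set.univ ∧ ∀ l : F, U.θ - algebraMap F R l ∉ U.J)

theorem mv_ext {s s' : U.St} {φ : P →ₐ[F] P} (h : U.game.Mv s φ s') {Q : RI R} {p : P}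
    (k : p ∈ ext U.C Q) : φ p ∈ ext U.C Q := ext_map U.C U.C φ h.1 k

theorem St.redQ (s : U.St) {Q : RI R} (hQ : NU Q) (p : P) : ∃ φ s', U.game.Mv s φ s' ∧
    ((∃ c, φ p - U.C c ∈ ext U.C Q) ∨ ∃ r c, c ∉ Q ∧ φ p * r - U.C c ∈ ext U.C Q) := by
  obtain ⟨φ, s', h, k | ⟨u, -, c, k⟩ | ⟨u, d, y, y', τ, -, -, -, k⟩⟩ := s.red Q Essn.top p
  · exact ⟨φ, s', h, .inl k⟩
  · exact ⟨φ, s', h, .inr ⟨_, c, k⟩⟩
  have k' : ∀ z, d * s'.a * z ∈ Q ↔ s'.a * z ∈ U.J := fun z => by rw [mul_assoc, k]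
  obtain ⟨c1, c2, a1, a2, a3⟩ := hQ (d * s'.a) fun e => s'.haJ (by simpa using (k' 1).1 (by simpa))
  obtain ⟨r, t, a4, a5⟩ := U.unif.2 _ (mt (k' _).2 a1) _ (mt (k' _).2 a2)
  refine (a5 ?_).elim
  rw [mul_assoc, ← k', ← mul_assoc]
  exact a3 r t (RI.cast ((k' (c1 * r - c2 * t)).2 (RI.cast a4 (by noncomm_ring))) (by noncomm_ring))

theorem St.redI (hU : U.Cs) (s : U.St) {I : RI R} (hI : SimpleF F I) (p : P) :
    ∃ φ s', U.game.Mv s φ s' ∧ ((∃ c, φ p - U.C c ∈ ext U.C I) ∨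
      ∃ r ∈ ext U.C I, ∃ c, c ∉ I ∧ φ p * r - U.C c ∈ ext U.C I) := by
  obtain ⟨φ, s', h, k | ⟨u, hu, c, k⟩ | ⟨u, d, y, y', τ, -, -, -, k⟩⟩ :=
    s.red I (hI.1.unif.essn U.G) p
  · exact ⟨φ, s', h, .inl k⟩
  · exact ⟨φ, s', h, .inr ⟨_, ext_of _ hu, c, k⟩⟩
  exfalso
  obtain hU | ⟨h1, -, h2⟩ := hU
  · obtain ⟨r, a1, a2⟩ := hU _ s'.haJ
    obtain ⟨c, a3⟩ := hI.1.2 _ (mt (k r).1 a1)
    exact a2 (c * (d * s'.a)) (RI.symm (RI.cast ((k (r * c * (d * s'.a) - 1)).1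
      (RI.cast (RI.mul a3 (d * s'.a)) (by noncomm_ring))) (by noncomm_ring)))
  · obtain ⟨e, c, a1, a2, a3, -⟩ := inv_of hI.1 h1 s'.haJ k
    obtain ⟨l, a4⟩ := hI.2 (e * U.θ * c) fun i hi => by
      rw [mul_assoc, mul_assoc, a1]
      exact U.idz _ ((a1 _).1 (RI.cast (I.add_mem (RI.mul a2 i) hi) (by noncomm_ring)))
    have a5 : (U.θ - algebraMap F R l) * c ∈ U.J := (a1 _).1
      (RI.cast (I.sub_mem a4 (RI.mul a2 (algebraMap F R l))) (by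
        rw [sub_mul, Algebra.commutes]; noncomm_ring))
    refine h2 l (RI.cast (U.J.add_mem (U.J.sub_mem (RI.mul a5 e) (U.idz _ a3))
      (RI.mul a3 (algebraMap F R l))) ?_)
    rw [← Algebra.commutes l (c * e - 1)]; noncomm_ring

/-- The seal for one element. -/
def DK (U : US F R P) (p : P) : Prop := p ∈ ext U.C U.J ∨
  ∃ a b r1 r2 : R, Idz U.J r1 ∧ Idz U.J r2 ∧ (∀ s, b - a * s ∉ U.J) ∧
    ∃ y1 y2 y3, U.C b - (U.C r1 * p * y1 + U.C r2 * p * y2 + U.C a * y3) ∈ ext U.C U.J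

theorem St.newK (hU : U.Cs) (s : U.St) (p : P) : ∃ φ s', U.game.Mv s φ s' ∧ U.DK (φ p) := by
  have i1 : Idz U.J 1 := fun _ k => by simpa using k
  obtain ⟨φ, s', h, ⟨c, k⟩ | ⟨u, -, c, k', k⟩ | ⟨u, d, y, y', τ, k1, k2, k3, k⟩⟩ :=
    s.red U.J Essn.top p
  · refine ⟨φ, s', h, (em (c ∈ U.J)).imp (fun l => RI.of_sub k (ext_of _ l)) fun l =>
      ⟨0, c, 1, 1, i1, i1, by simpa, 1, 0, 0, by simpa using RI.symm k⟩⟩
  · exact ⟨φ, s', h, .inr ⟨0, c, 1, 1, i1, i1, by simpa, U.C u, 0, 0, by simpa using RI.symm k⟩⟩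
  obtain hU | ⟨h1, h2, -⟩ := hU
  · obtain ⟨r, a1, a2⟩ := hU _ s'.haJ
    obtain ⟨ψ, t, m, ⟨c, m1⟩, -, -, m2⟩ := s'.shrink (δ := s'.a * y' * s'.bt τ) a1
      (by simp only [mul_assoc, ra s'.ha]) (by rw [mul_assoc, s'.bt_b])
    refine ⟨ψ.comp φ, t, U.game.comp h m, .inr ⟨d * (s'.a * r), d * s'.a, 1, 1, i1, i1, fun z l =>
      a2 z (RI.cast ((k (1 - r * z)).1 (RI.cast l (by noncomm_ring))) (by noncomm_ring)),
      U.C u, 0, -(U.C c * t.x * U.C y), RI.cast (Submodule.neg_mem _ (mv_ext m k1)) ?_⟩⟩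
    have e1 : U.C s'.a * (U.C r * (U.C c * t.x)) = t.x := by
      rw [← mul_assoc, ← mul_assoc, ← map_mul, ← map_mul, ← m1, t.ax]
    have e2 : U.C y' * (U.C (s'.bt τ) * U.C y) = 1 := by rw [← map_mul, k3, ← map_mul, k2, map_one]
    simp only [map_sub, map_mul, m.1, m2, AlgHom.comp_apply, map_one, mul_add, add_mul, mul_assoc,
      mul_neg, e2, mul_one, one_mul, mul_zero, add_zero]
    rw [← mul_assoc (U.C c), ← mul_assoc (U.C r), ← mul_assoc (U.C s'.a), e1]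
    abel
  · obtain ⟨i0, i1, j0, j1, b1, b2, b3, b4, -⟩ := U.G.lea
    obtain ⟨ψ, t, N, m, m1⟩ := s'.link h2 h1 (τ0 := τ) (y0 := y * i0) (y1 := y * i1) (γ0 := j0 * y')
      (γ1 := j1 * y') (ra k3 _) (ra k3 _) (by simp only [mul_assoc, ra k2, one_mul, b1])
      (by simp only [mul_assoc, ra k2, one_mul, b2]) (by simp only [mul_assoc, ra k2, one_mul, b3])
      (by simp only [mul_assoc, ra k2, one_mul, b4])
    obtain ⟨e, c, a1, a2, a3, a4⟩ := inv_of h1 h1 s'.haJ k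
    have a5 : Idz U.J c := fun i hi =>
      (a1 _).1 (RI.cast (U.J.add_mem (RI.mul a2 i) hi) (by noncomm_ring))
    have a6 : c * d * s'.a - s'.a ∈ U.J :=
      RI.cast (U.J.add_mem (a5 _ a4) (RI.mul a3 s'.a)) (by noncomm_ring)
    have e1 : U.C s'.a * ψ s'.x = ψ s'.x := by rw [← m.1, ← map_mul, s'.ax]
    have a7 : U.C c * ψ (φ p) * U.C u - ψ s'.x * U.C y ∈ ext U.C U.J :=
      RI.cast (Submodule.add_mem _ (a5.ext U.G.reg U.C (mv_ext m k1))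
        (ext_mul U.C a6 (ψ s'.x * U.C y))) (by
          simp only [map_sub, map_mul, m.1, mul_sub, sub_mul, mul_assoc, ra e1]; abel)
    refine ⟨ψ.comp φ, t, U.game.comp h m, .inr ⟨0, s'.a, c, U.θ ^ N * c, a5, fun i hi => ?_,
      by simpa using s'.haJ, U.C u * U.C i0, U.C u * U.C i1, 0, RI.cast (Submodule.neg_mem _
        (Submodule.add_mem _ (Submodule.add_mem _ m1 (RI.mul a7 (U.C i0)))
          ((U.idz_pow N).ext U.G.reg U.C (RI.mul a7 (U.C i1))))) ?_⟩⟩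
    · rw [mul_assoc]; exact U.idz_pow N _ (a5 i hi)
    · simp only [map_mul, AlgHom.comp_apply]; noncomm_ring

/-- Two independent multiples of one element. -/
def DN (s : U.St) (p : P) : Prop := p ∈ ext U.C U.J ∨
  ∃ (ρ1 ρ2 w1 w2 : P) (d c : R), (w1, w2) ∈ s.tr ∧ p * ρ1 - U.C d * w1 ∈ ext U.C U.J ∧
    p * ρ2 - U.C d * w2 ∈ ext U.C U.J ∧ U.C c * w1 = w1 ∧ U.C c * w2 = w2 ∧
    ∀ z, d * (c * z) ∈ U.J ↔ c * z ∈ U.J

theorem St.nu_of (s : U.St) {p ρ : P} {d y y' : R} {τ : ℕ}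
    (k1 : p * ρ - U.C d * s.x * U.C y ∈ ext U.C U.J) (k2 : y' * y = 1) (k3 : s.bt τ * y = y)
    (k : ∀ z, d * (s.a * z) ∈ U.J ↔ s.a * z ∈ U.J) : ∃ φ s', U.game.Mv s φ s' ∧ DN s' (φ p) := by
  obtain ⟨i0, i1, j0, j1, b1, b2, b3, b4, -⟩ := U.G.lea
  obtain ⟨ψ, t, m, m1, m2⟩ := s.split (τ0 := τ) (y0 := y * i0) (y1 := y * i1) (γ := j0 * y')
    (ra k3 _) (ra k3 _) (by simp only [mul_assoc, ra k2, one_mul, b1])
    (by simp only [mul_assoc, ra k2, one_mul, b3]) fun e => U.G.nt (by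
      simpa only [mul_assoc, ra k2, one_mul, b2, mul_zero] using congrArg (j1 * y' * ·) e)
  have : ∀ i, ψ p * (ψ ρ * U.C i) - U.C d * (s.x * U.C (y * i)) ∈ ext U.C U.J := fun i =>
    RI.cast (RI.mul (mv_ext m k1) (U.C i)) (by
      simp only [map_sub, map_mul, m.1, m1, sub_mul, mul_assoc])
  exact ⟨ψ, t, m, .inr ⟨_, _, _, _, d, s.a, m2, this _, this _, ra s.ax _, ra s.ax _, k⟩⟩

theorem St.nu_c (s : U.St) {p ρ : P} {c : R} (hc : c ∉ U.J) (k1 : p * ρ - U.C c ∈ ext U.C U.J) :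
    ∃ φ s', U.game.Mv s φ s' ∧ DN s' (φ p) := by
  obtain ⟨r, t, a1, a2⟩ := U.unif.2 _ s.haJ _ hc
  obtain ⟨ψ, s', m, ⟨c', m1⟩, -⟩ := s.shrink (δ := 0) a2 (mul_zero _) (zero_mul _)
  obtain ⟨τ, hτ⟩ : ∃ τ, s'.bt τ ≠ 0 := by
    by_contra h
    exact s'.b0 (by rw [s'.hb]; exact Finset.sum_eq_zero fun τ _ => not_not.1 fun e => h ⟨τ, e⟩)
  obtain ⟨y, y', b1, b2, -⟩ := U.G.sub (s'.idem τ) hτ
  have e1 : U.C s.a * (U.C r * (U.C c' * s'.x)) = s'.x := by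
    rw [← mul_assoc, ← mul_assoc, ← map_mul, ← map_mul, ← m1, s'.ax]
  obtain ⟨χ, s'', n, n1⟩ := s'.nu_of (p := ψ p) (ρ := ψ ρ * (U.C t * (U.C c' * s'.x * U.C y)))
    (d := 1) (RI.cast (Submodule.sub_mem _ (RI.mul (mv_ext m k1) (U.C t * (U.C c' * s'.x * U.C y)))
      (ext_mul U.C a1 (U.C c' * s'.x * U.C y))) (by
        simp only [map_sub, map_mul, m.1, map_one, one_mul, sub_mul, mul_assoc]
        rw [← mul_assoc (U.C c'), ← mul_assoc (U.C r), ← mul_assoc (U.C s.a), e1]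
        abel)) b1 b2 fun z => by rw [one_mul]
  exact ⟨χ.comp ψ, s'', U.game.comp m n, n1⟩

theorem St.newN (s : U.St) (p : P) : ∃ φ s', U.game.Mv s φ s' ∧ DN s' (φ p) := by
  obtain ⟨φ, s', h, ⟨c, k⟩ | ⟨u, -, c, k', k⟩ | ⟨u, d, y, y', τ, k1, k2, k3, k⟩⟩ :=
    s.red U.J Essn.top p
  · by_cases l : c ∈ U.J
    · exact ⟨φ, s', h, .inl (RI.of_sub k (ext_of _ l))⟩
    · obtain ⟨ψ, t, m, n⟩ := s'.nu_c (p := φ p) (ρ := 1) l (by rwa [mul_one])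
      exact ⟨ψ.comp φ, t, U.game.comp h m, n⟩
  · obtain ⟨ψ, t, m, n⟩ := s'.nu_c k' k
    exact ⟨ψ.comp φ, t, U.game.comp h m, n⟩
  · obtain ⟨ψ, t, m, n⟩ := s'.nu_of k1 k2 k3 k
    exact ⟨ψ.comp φ, t, U.game.comp h m, n⟩

theorem lim_fs {T : Type} [Ring T] [Algebra F T] {f : R →ₐ[F] T} {st : ℕ → U.St}
    {κ : ℕ → P →ₐ[F] T} (h : U.game.Lim f st κ) {n : ℕ} {w1 w2 : P} (k : (w1, w2) ∈ (st n).tr) :
    κ n w1 ∉ ext f U.J ∧ κ n w2 ∉ ext f U.J ∧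
      ∀ d1 d2, κ n w1 * d1 - κ n w2 * d2 ∈ ext f U.J → κ n w1 * d1 ∈ ext f U.J := by
  refine ⟨fun e => ?_, fun e => ?_, fun d1 d2 e => ?_⟩
  · obtain ⟨m, φ, a1, -, a2⟩ := h.down U.G.reg e
    exact (St.fs _ (a1.2.2 _ k)).1 a2
  · obtain ⟨m, φ, a1, -, a2⟩ := h.down U.G.reg e
    exact (St.fs _ (a1.2.2 _ k)).2.1 a2
  obtain ⟨m1, q1, rfl⟩ := h.surj d1
  obtain ⟨m2, q2, rfl⟩ := h.surj d2
  obtain ⟨m3, φ1, φ2, -, -, a1, a2⟩ := h.dir m1 m2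
  obtain ⟨m, φ, ψ, a3, -, a4, a5⟩ := h.dir n m3
  rw [← a1, ← a2, ← a5, ← a5, ← a4, ← a4, ← map_mul, ← map_mul, ← map_sub] at e
  obtain ⟨l, χ, b1, b2, b3⟩ := h.down U.G.reg e
  rw [map_sub, map_mul, map_mul] at b3
  rw [← a1, ← a5, ← a4, ← map_mul, ← b2, map_mul]
  exact h.up l ((St.fs _ (b1.2.2 _ (a3.2.2 _ k))).2.2 _ (b1.2.1 _) _ (b1.2.1 _) b3)

/-- The starting state. -/
def st0 (U : US F R P) : U.St where
  a := 1
  n := 1
  bt τ := if τ = 0 then 1 else 0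
  b := 1
  x := U.C 1 * U.X * U.C 1
  tr := ∅
  ha := mul_one _
  haJ := U.unif.1
  idem τ := by split_ifs <;> simp
  orth τ σ h := by split_ifs <;> simp_all
  zero τ h := if_neg (by omega)
  hb := by simp
  hx := rfl
  b0 := U.G.nt
  fin := Set.finite_empty
  trk _ h := h.elim

theorem main [Countable R] [Countable P] (hU : U.Cs) {I : RI R} (hI : SimpleF F I)
    {QQ : Set (RI R)} (hQQ : QQ.Countable) (hNU : ∀ Q ∈ QQ, NU Q) {LL : Set (Ideal R)}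
    (hLL : LL.Countable) : ∃ (T : Type) (_ : Ring T) (_ : Algebra F T) (_ : Countable T)
      (f : R →ₐ[F] T), Extn F f I QQ LL ∧ KeptS f U.J ∧ NU (ext f U.J) := by
  obtain ⟨T, _, _, _, f, st, κ, h1, h2, -, h3⟩ := Game.extn U.G hI hQQ hNU hLL U.game (U.ev 0)
    (U.evC 0) U.st0 St.reg (fun Q k s p => St.redQ s (hNU Q k) p) (fun s p => St.redI hU s hI p)
    (fun L s p => St.left s L p) (fun (i : Bool) s p => cond i (U.DK p) (DN s p))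
    fun i s p => by cases i; exacts [St.newN s p, St.newK hU s p]
  refine ⟨T, _, _, inferInstance, f, h1, fun x hx => ?_, fun x hx => ?_⟩
  · obtain ⟨n, p, rfl, k | ⟨a, b, r1, r2, a1, a2, a3, y1, y2, y3, a4⟩⟩ := h3 true x
    · exact (hx (h2.up n k)).elim
    · exact ⟨a, b, r1, r2, a1, a2, a3, κ n y1, κ n y2, κ n y3, by
        simpa only [map_sub, map_add, map_mul, h2.const] using h2.up n a4⟩
  · obtain ⟨n, p, rfl, k | ⟨ρ1, ρ2, w1, w2, d, c, a1, a2, a3, a4, a5, a6⟩⟩ := h3 false x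
    · exact (hx (h2.up n k)).elim
    obtain ⟨b1, b2, b3⟩ := lim_fs h2 a1
    have c1 : ∀ z, f c * z = z → (f d * z ∈ ext f U.J ↔ z ∈ ext f U.J) := fun z e =>
      ⟨fun l => e ▸ flat U.G.reg f (c := d * c) (fun z l => (a6 z).1 (by rwa [← mul_assoc]))
        (by rwa [map_mul, mul_assoc, e]), fun l => by
        simpa only [map_mul, mul_assoc, e] using flat U.G.reg f (c := c) (d := d * c) (z := z)
          (fun z l => by rw [mul_assoc]; exact (a6 z).2 l) (by rwa [e])⟩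
    have c2 := h2.up n a2
    have c3 := h2.up n a3
    have c4 := congrArg (κ n) a4
    have c5 := congrArg (κ n) a5
    simp only [map_sub, map_mul, h2.const] at c2 c3 c4 c5
    refine ⟨κ n ρ1, κ n ρ2, fun e => b1 ((c1 _ c4).1 (RI.of_sub' c2 e)),
      fun e => b2 ((c1 _ c5).1 (RI.of_sub' c3 e)), fun d1 d2 e => ?_⟩
    have c6 := (c1 _ (ra c4 d1)).2 (b3 d1 d2 ((c1 _ (by rw [mul_sub, ra c4, ra c5])).1
      (RI.cast (Submodule.add_mem _ (Submodule.sub_mem _ e (RI.mul c2 d1)) (RI.mul c3 d2))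
        (by noncomm_ring))))
    exact RI.cast (Submodule.add_mem _ (RI.mul c2 d1) c6) (by noncomm_ring)

end US

theorem stU (F : Type) [Field F] [IsAlgClosed F] [Countable F] : St_U F := by
  intro R _ _ _ G I hI QQ hQQ hNU LL hLL J hJ
  obtain ⟨P, _, _, _, ⟨Y⟩⟩ := exists_polyR F R
  obtain ⟨h1, h2⟩ | ⟨h1, h2⟩ := hJ
  · refine US.main (U := ⟨Y, G, J, h1, 1, fun _ k => by simpa using k, {0}, rfl,
      fun s c z a1 a2 a3 j a4 => by_contra fun a5 => a3 ?_⟩) (.inl h2) hI hQQ hNU hLL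
    obtain rfl : j = 0 := a1 a4
    rw [Finset.sum_eq_single 0 (fun b k l => (l (a1 k)).elim) fun k => (k a4).elim] at a2
    simpa [smul_smul, a5] using RI.fsmul a2 (c 0)⁻¹
  · simp only [EndF, not_forall, not_exists] at h2
    obtain ⟨r, h2, h3⟩ := h2
    exact US.main (U := ⟨Y, G, J, h1.unif, r, h2, Set.univ, trivial, fun s c z _ a2 a3 j a4 =>
      by_contra fun a5 => a3 (Z54.indD' h1 h2 h3 s c ⟨j, a4, a5⟩ z a2)⟩) (.inr ⟨h1, rfl, h3⟩)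
      hI hQQ hNU hLL

end Z87
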